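import Pool.Agent.GD.ST.Sat

/-!
# General d: contraction by a point (FACT 4) and simple points

`F ↦ F(q^e ·)` maps the solutions of degree `D` of the level `I` into the solutions of degree `D - e` of the
level `I ∩ A` (`A` = the blocks on which `q` vanishes), its kernel is the solutions of `ord e A ::ₘ ms`.
Use `mem_LS`, `Fn_ctn` and `gn_gd` (three general statements for the same positions).
-/

set_option autoImplicit false
set_option linter.unusedSectionVars false

namespace Pool.Agent.GD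

open Finset MvPolynomial Pool.Agent.H51.TB Pool.Agent.V7.ST
open Pool.Agent.H18.Ex (tcr)
open Pool.Agent.H21.NX (Sx mem_Sx)
open Pool.Agent.V7 (msk)

section

variable {ν : Type} [Fintype ν] [DecidableEq ν]

/-- Functionals which vanish on the monomials off a block. -/
theorem ctr_avoid {R : Type} [CommRing R] (Ψ : MvPolynomial ν R →ₗ[R] R) {β : ν → ℕ} {i : ℕ}
    (h : ∀ b : ν → ℕ, (∀ s, β s = i → b s = 0) → Ψ (mon R b) = 0) {u : ν → R}
    (hu : ∀ s, β s = i → u s = 0) :
    ∀ (m : ℕ) (b : ν → ℕ), (∀ s, β s = i → b s = 0) → Ψ (lf u ^ m * mon R b) = 0 := by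
  intro m
  induction m with
  | zero =>
    intro b hb
    rw [pow_zero, one_mul]
    exact h b hb
  | succ m ih =>
    intro b hb
    have h1 : lf u ^ (m + 1) * mon R b =
        ∑ l, C (u l) * (lf u ^ m * mon R (b + Pi.single l 1)) := by
      rw [pow_succ]
      conv_lhs => rw [lf]
      rw [mul_sum, sum_mul]
      refine sum_congr rfl fun l _ => ?_
      rw [mon_add, mon_single]
      show lf u ^ m * (C (u l) * X l) * mon R b = _
      ring
    rw [h1, map_sum]
    refine sum_eq_zero fun l _ => ?_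
    rw [C_mul_eq_smul, map_smul, smul_eq_mul]
    by_cases hl : β l = i
    · rw [hu l hl, zero_mul]
    · refine mul_eq_zero_of_right _ (ih _ fun s hs => ?_)
      rw [Pi.add_apply, hb s hs, Pi.single_eq_of_ne (fun h' : s = l => hl (by rw [← h']; exact hs)), add_zero]

/-- Contraction of a functional by a point which vanishes on the blocks of `A`. -/
theorem ctr_sat {R : Type} [CommRing R] {d : ℕ} {β : ν → ℕ} {I A : Finset ℕ} {k : Kd}
    {q : ν × Fin (d + 1) → R} {Φ Φ' : MvPolynomial ν R →ₗ[R] R} (h : Sat β I k q Φ) {u : ν → R}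
    (hu : ∀ s, β s ∈ A → u s = 0) (e : ℕ) (hΦ : ∀ P, Φ' P = Φ (lf u ^ e * P)) :
    Sat β (I ∩ A) k q Φ' := by
  constructor
  · intro x hx y
    rw [hΦ, ← h.1 x hx (lf u ^ e * y)]
    congr 1
    ring
  · have h2 := h.2
    rcases k with ⟨e', A'⟩ | ⟨e', dl, i, As⟩
    · trivial
    · intro hi κ h3 h4 b hb
      rw [mem_inter] at hi
      rw [hΦ]
      have h5 := ctr_avoid (Φ.comp (LinearMap.mulLeft R
        (lf (uu β (.cl e' dl i As) q) ^ (As.length * (e' - 1)) * lf (zz β i q) ^ κ)))
        (β := β) (i := i) (fun b' hb' => by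
          rw [LinearMap.comp_apply, LinearMap.mulLeft_apply, mul_assoc]
          exact h2 hi.1 κ h3 h4 b' hb') (u := u)
        (fun s hs => hu s (by rw [hs]; exact hi.2)) e b hb
      rw [LinearMap.comp_apply, LinearMap.mulLeft_apply] at h5
      rw [← h5]
      congr 1
      ring

theorem ctr_ext {D e : ℕ} (he : e ≤ D) (β : ν → ℕ) (I A : Finset ℕ) {u : ν → ℂ}
    (hu : ∀ s, β s ∈ A → u s = 0) (f : {a // a ∈ Ex β D I} → ℂ) (g : ν → ℕ)
    (hg : g ∉ Ex β (D - e) (I ∩ A)) : ctn u e (ext0 (Ex β D I) f) g = 0 := by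
  unfold ctn
  refine mul_eq_zero_of_right _ (sum_eq_zero fun a ha => ?_)
  by_cases h : a ∈ Ex β D I
  · rw [mem_Sx] at ha
    have h1 := mem_Ex.1 h
    rw [mem_Ex] at hg
    push Not at hg
    obtain ⟨i, hi, h2⟩ := hg (by omega)
    rw [mem_inter] at hi
    obtain ⟨s, hs, has⟩ := h1.2 i hi.1
    refine mul_eq_zero_of_right _ ?_
    unfold tcr
    refine prod_eq_zero (mem_univ s) ?_
    rw [h2 s hs, Nat.sub_zero, hu s (by rw [hs]; exact hi.2), zero_pow has, mul_zero]
  · rw [ext0_not f h, zero_mul]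

/-- The contraction of the solutions. -/
noncomputable def ctrF (D e : ℕ) (β : ν → ℕ) (I A : Finset ℕ) (u : ν → ℂ) :
    ({a // a ∈ Ex β D I} → ℂ) →ₗ[ℂ] ({a // a ∈ Ex β (D - e) (I ∩ A)} → ℂ) where
  toFun f := fun g => ctn u e (ext0 (Ex β D I) f) g.1
  map_add' f f' := by
    funext g
    show ctn u e (ext0 (Ex β D I) (f + f')) g.1 = ctn u e (ext0 (Ex β D I) f) g.1 +
      ctn u e (ext0 (Ex β D I) f') g.1
    unfold ctn
    rw [← mul_add, ← sum_add_distrib]
    congr 1
    refine sum_congr rfl fun a _ => ?_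
    rw [← add_mul]
    congr 1
    unfold ext0
    split_ifs
    · rfl
    · rw [add_zero]
  map_smul' c f := by
    funext g
    show ctn u e (ext0 (Ex β D I) (c • f)) g.1 = c * ctn u e (ext0 (Ex β D I) f) g.1
    unfold ctn
    have h1 : ∑ a ∈ Sx ν (e + ∑ s, g.1 s), ext0 (Ex β D I) (c • f) a * tcr u a g.1 =
        c * ∑ a ∈ Sx ν (e + ∑ s, g.1 s), ext0 (Ex β D I) f a * tcr u a g.1 := by
      rw [mul_sum]
      refine sum_congr rfl fun a _ => ?_
      rw [← mul_assoc]
      congr 1
      unfold ext0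
      split_ifs
      · rfl
      · rw [mul_zero]
    rw [h1]
    ring

theorem ctrF_ext {D e : ℕ} (he : e ≤ D) (β : ν → ℕ) (I A : Finset ℕ) {u : ν → ℂ}
    (hu : ∀ s, β s ∈ A → u s = 0) (f : {a // a ∈ Ex β D I} → ℂ) :
    ext0 (Ex β (D - e) (I ∩ A)) (ctrF D e β I A u f) = ctn u e (ext0 (Ex β D I) f) := by
  funext g
  by_cases hg : g ∈ Ex β (D - e) (I ∩ A)
  · have h1 := ext0_mem (ctrF D e β I A u f) (⟨g, hg⟩ : {a // a ∈ Ex β (D - e) (I ∩ A)})
    exact h1
  · rw [ext0_not _ hg, ctr_ext he β I A hu f g hg]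

theorem ctr_Fn_zero (A : Finset (ν → ℕ)) (P : MvPolynomial ν ℂ) :
    Fn (ext0 A (0 : {a // a ∈ A} → ℂ)) P = 0 := by
  have h1 : Fn (ext0 A (0 : {a // a ∈ A} → ℂ)) = 0 := by
    refine mon_span _ fun b => ?_
    rw [Fn_mon]
    have h2 : ext0 A (0 : {a // a ∈ A} → ℂ) b = 0 := by
      unfold ext0
      split_ifs <;> rfl
    rw [h2, mul_zero]
  rw [h1, LinearMap.zero_apply]

end

/-- One more point costs at most the dimension of the level `I ∩ A` in degree `D - e`. -/
theorem HI_ctr {ν : Type} [Fintype ν] [DecidableEq ν] {d D e : ℕ} (hD : D ≤ d) (he : e ≤ D)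
    (β : ν → ℕ) (I A : Finset ℕ) (ms : Multiset Kd) :
    HI d D β I ms ≤ HI d D β I (.ord e A ::ₘ ms) + HI d (D - e) β (I ∩ A) ms := by
  classical
  obtain ⟨m, hm, -⟩ := exists_conf (LS d D β I) ms
  unfold HI
  have e1 : gM (LS d D β I) ms = (LS d D β I).gd m := by rw [gd_eq_gM, hm]
  have e2 : gM (LS d D β I) (.ord e A ::ₘ ms) = (LS d D β I).gd (ad m (.ord e A)) := by
    rw [gd_eq_gM, map_ad, hm]
  have e3 : gM (LS d (D - e) β (I ∩ A)) ms = (LS d (D - e) β (I ∩ A)).gd m := by
    rw [gd_eq_gM, hm]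
  rw [e1, e2, e3]
  obtain ⟨r, h1, h2⟩ := ((gn_gd (LS d D β I) (ad m (.ord e A))).and
    ((gn_gd (LS d (D - e) β (I ∩ A)) m).comap Sum.inl Sum.inl_injective)).exists
  let p : Fin ms.toList.length → ν × Fin (d + 1) → ℂ := fun i => r (Sum.inl i)
  let q : ν × Fin (d + 1) → ℂ := r (Sum.inr ())
  let u : ν → ℂ := msk β A fun s => q (s, 0)
  have hu : ∀ s, β s ∈ A → u s = 0 := fun s hs => if_pos hs
  have h3 := gd_le (LS d D β I) m p
  let W : Submodule ℂ ({a // a ∈ Ex β (D - e) (I ∩ A)} → ℂ) := (LS d (D - e) β (I ∩ A)).V m p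
  let Φ : (LS d D β I).V m p →ₗ[ℂ] W := ((ctrF D e β I A u).comp
    (Submodule.subtype _)).codRestrict W fun F => by
      show ctrF D e β I A u F.1 ∈ (LS d (D - e) β (I ∩ A)).V m p
      rw [mem_LS (by omega)]
      intro i
      have h4 := (mem_LS hD β I m p F.1).1 F.2 i
      refine ctr_sat h4 hu e fun P => ?_
      rw [ctrF_ext he β I A hu, Fn_ctn]
  have h5 := LinearMap.finrank_range_add_finrank_ker Φ
  have h6 : Module.finrank ℂ (LinearMap.range Φ) ≤ Module.finrank ℂ W := Submodule.finrank_le _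
  have h7 : Module.finrank ℂ (LinearMap.ker Φ) ≤
      Module.finrank ℂ ((LS d D β I).V (ad m (.ord e A)) r) := by
    rw [← Submodule.finrank_map_subtype_eq]
    refine Submodule.finrank_mono ?_
    rintro _ ⟨F, hF, rfl⟩
    rw [mem_LS hD]
    rintro (i | i)
    · exact (mem_LS hD β I m p F.1).1 F.2 i
    · refine ⟨fun x _ y => ?_, trivial⟩
      have h8 : ctrF D e β I A u F.1 = 0 := congrArg Subtype.val (hF : Φ F = 0)
      have h9 := Fn_ctn u e (ext0 (Ex β D I) F.1) y
      rw [← ctrF_ext he β I A hu, h8, ctr_Fn_zero] at h9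
      exact h9.symm
  have h8 : Module.finrank ℂ W = (LS d (D - e) β (I ∩ A)).gd m := h2
  rw [h1] at h7
  omega

/-- The dimension of the forms of degree `0`. -/
theorem HI_zero_le {ν : Type} [Fintype ν] [DecidableEq ν] {d : ℕ} (β : ν → ℕ) (I : Finset ℕ)
    (ms : Multiset Kd) : HI d 0 β I ms ≤ 1 := by
  classical
  obtain ⟨m, hm, -⟩ := exists_conf (LS d 0 β I) ms
  have e1 : HI d 0 β I ms = (LS d 0 β I).gd m := by
    unfold HI
    rw [gd_eq_gM, hm]
  rw [e1]
  refine (gd_le_card (LS d 0 β I) m).trans ?_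
  rw [Fintype.card_le_one_iff]
  rintro ⟨a, ha⟩ ⟨b, hb⟩
  refine Subtype.ext ?_
  have h1 := Ex_sum ha
  have h2 := Ex_sum hb
  funext s
  have h3 : a s ≤ ∑ s, a s := single_le_sum (f := a) (fun _ _ => Nat.zero_le _) (mem_univ s)
  have h4 : b s ≤ ∑ s, b s := single_le_sum (f := b) (fun _ _ => Nat.zero_le _) (mem_univ s)
  show a s = b s
  omega

/-- A simple point imposes one condition. -/
theorem HI_simple {ν : Type} [Fintype ν] [DecidableEq ν] {d D : ℕ} (hD : D ≤ d) (β : ν → ℕ)
    (I : Finset ℕ) (ms : Multiset Kd) :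
    HI d D β I (.ord D ∅ ::ₘ ms) = HI d D β I ms - 1 := by
  classical
  have h1 := HI_ctr hD le_rfl β I ∅ ms
  rw [Nat.sub_self] at h1
  have h2 := HI_zero_le (d := d) β (I ∩ ∅) ms
  obtain ⟨m, hm, -⟩ := exists_conf (LS d D β I) ms
  have e1 : HI d D β I ms = (LS d D β I).gd m := by
    unfold HI
    rw [gd_eq_gM, hm]
  have e2 : HI d D β I (.ord D ∅ ::ₘ ms) = (LS d D β I).gd (ad m (.ord D ∅)) := by
    unfold HI
    rw [gd_eq_gM, map_ad, hm]
  have h3 : HI d D β I (.ord D ∅ ::ₘ ms) ≤ HI d D β I ms - 1 := by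
    by_cases h0 : HI d D β I ms = 0
    · have h4 := gd_ad_le (LS d D β I) m (.ord D ∅)
      rw [← e1, ← e2] at h4
      omega
    · obtain ⟨p, hp⟩ := gd_attained (LS d D β I) m
      rw [← e1] at hp
      -- a solution
      obtain ⟨F, hF, hF0⟩ : ∃ F ∈ (LS d D β I).V m p, F ≠ 0 := by
        by_contra hcon
        push Not at hcon
        refine h0 ?_
        rw [← hp, Submodule.finrank_eq_zero, Submodule.eq_bot_iff]
        exact hcon
      -- its polynomial
      let G : MvPolynomial ν ℂ := ∑ a : {a // a ∈ Ex β D I}, C (F a) * mon ℂ a.1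
      have hG : G ≠ 0 := by
        intro h
        refine hF0 (funext fun a => ?_)
        have h5 := congrArg (coeff (Finsupp.equivFunOnFinite.symm a.1)) h
        rw [coeff_sum, coeff_zero, sum_eq_single a] at h5
        · rw [mon_eq, coeff_C_mul, coeff_monomial, if_pos rfl, mul_one] at h5
          exact h5
        · intro b _ hb
          rw [mon_eq, coeff_C_mul, coeff_monomial, if_neg, mul_zero]
          intro h'
          exact hb (Subtype.ext (Finsupp.equivFunOnFinite.symm.injective h'))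
        · exact fun h' => absurd (mem_univ a) h'
      obtain ⟨q, hq⟩ : ∃ q : ν → ℂ, eval q G ≠ 0 := by
        by_contra hcon
        push Not at hcon
        exact hG (MvPolynomial.funext fun q => by rw [hcon q, map_zero])
      let Q : Unit → ν × Fin (d + 1) → ℂ := fun _ x => q x.1
      have h4 : (LS d D β I).V (ad m (.ord D ∅)) (Sum.elim p Q) < (LS d D β I).V m p := by
        refine lt_of_le_of_ne ?_ fun heq => ?_
        · intro f hf
          rw [mem_LS hD] at hf ⊢
          exact fun i => hf (Sum.inl i)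
        · rw [← heq, mem_LS hD] at hF
          have h5 := (hF (Sum.inr ())).1 0 (by show 0 < 1; omega) (mon ℂ 0)
          have h6 : pt β (Kd.ord D ∅) 0 (Q ()) = q := by
            funext s
            show msk β ∅ (fun s => q s) s = q s
            unfold msk
            rw [if_neg (notMem_empty _)]
          have h7 : Fn (ext0 (Ex β D I) F) (lf (pt β (Kd.ord D ∅) 0 (Q ())) ^ D * mon ℂ 0) = 0 := h5
          rw [h6, Fn_lf] at h7
          have h8 : D + ∑ s : ν, (0 : ν → ℕ) s = D := by simp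
          rw [h8, sum_ext0 (fun a ha => Ex_sum ha) F fun g => tcr q g 0] at h7
          have h9 := (mul_eq_zero.1 h7).resolve_left (cast_fac_ne D (0 : ν → ℕ))
          refine hq ?_
          rw [← h9]
          show eval q (∑ a : {a // a ∈ Ex β D I}, C (F a) * mon ℂ a.1) = _
          rw [map_sum]
          refine sum_congr rfl fun a _ => ?_
          rw [map_mul, eval_C]
          congr 1
          unfold mon tcr
          rw [map_prod]
          refine prod_congr rfl fun s _ => ?_
          rw [map_pow, eval_X]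
          simp
      have h5 := Submodule.finrank_lt_finrank_of_lt h4
      have h6 := gd_le (LS d D β I) (ad m (.ord D ∅)) (Sum.elim p Q)
      rw [← e2] at h6
      omega
  omega

/-- `r` simple points. -/
theorem HL_simple {d j n : ℕ} (c : ℕ → ℕ) (r : ℕ) (ms : Multiset Kd) :
    HL d d c n j (ms + Multiset.replicate r (sm d)) = HL d d c n j ms - r := by
  induction r with
  | zero => simp
  | succ r ih =>
    rw [Multiset.replicate_succ, Multiset.add_cons]
    have h1 : HL d d c n j (sm d ::ₘ (ms + Multiset.replicate r (sm d))) =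
        HL d d c n j (ms + Multiset.replicate r (sm d)) - 1 := HI_simple le_rfl (blk c n) (range j) _
    rw [h1, ih]
    omega

end Pool.Agent.GD
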