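import Pool.Agent.GD.Defs

/-!
# General d: the blocks of the numbered variables
-/

set_option autoImplicit false

namespace Pool.Agent.GD

open Finset

private theorem add_one_le_psum {c : ℕ → ℕ} {i : ℕ} (hc : ∀ k ≤ i, 1 ≤ c k) :
    i + 1 ≤ ∑ k ∈ range (i + 1), c k := by
  calc i + 1 = ∑ _k ∈ range (i + 1), 1 := by simp
    _ ≤ _ := sum_le_sum fun k hk => hc k (by rw [mem_range] at hk; omega)

private theorem psum_mono (c : ℕ → ℕ) {k l : ℕ} (h : k ≤ l) :
    ∑ i ∈ range k, c i ≤ ∑ i ∈ range l, c i :=
  sum_le_sum_of_subset (range_mono h)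

private theorem down_eq_range (F : Finset ℕ) (h : ∀ k ∈ F, ∀ l < k, l ∈ F) : F = range F.card := by
  refine eq_of_subset_of_card_le ?_ (by rw [card_range])
  intro k hk
  rw [mem_range]
  have h1 : range (k + 1) ⊆ F := by
    intro l hl
    rw [mem_range] at hl
    rcases Nat.lt_or_ge l k with h2 | h2
    · exact h k hk l h2
    · have : l = k := by omega
      rw [this]
      exact hk
  have h2 := card_le_card h1
  rw [card_range] at h2
  omega

private theorem bidx_iff {c : ℕ → ℕ} {i : ℕ} (hc : ∀ k ≤ i, 1 ≤ c k) (s : ℕ) :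
    bidx c s = i ↔ ∑ k ∈ range i, c k ≤ s ∧ s < ∑ k ∈ range (i + 1), c k := by
  unfold bidx
  set F := (range (s + 1)).filter fun k => ∑ i ∈ range (k + 1), c i ≤ s with hF
  have hmem : ∀ k, k ∈ F ↔ k < s + 1 ∧ ∑ i ∈ range (k + 1), c i ≤ s := by
    intro k
    rw [hF, mem_filter, mem_range]
  constructor
  · intro h
    have h1 : F = range i := by
      rw [← h]
      refine down_eq_range F fun k hk l hl => ?_
      rw [hmem] at hk ⊢
      exact ⟨by omega, (psum_mono c (by omega)).trans hk.2⟩
    constructor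
    · rcases Nat.eq_zero_or_pos i with h0 | h0
      · rw [h0, sum_range_zero]
        exact Nat.zero_le _
      · have h2 : i - 1 ∈ F := by
          rw [h1, mem_range]
          omega
        have h3 := ((hmem _).1 h2).2
        rwa [Nat.sub_add_cancel h0] at h3
    · by_contra hlt
      have h2 := add_one_le_psum hc
      have h3 : i ∈ F := (hmem i).2 ⟨by omega, by omega⟩
      rw [h1, mem_range] at h3
      omega
  · rintro ⟨h1, h2⟩
    have h3 : F = range i := by
      ext k
      rw [hmem, mem_range]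
      constructor
      · rintro ⟨_, h4⟩
        by_contra hk
        have := psum_mono c (show i + 1 ≤ k + 1 by omega)
        omega
      · intro hk
        have h4 := psum_mono c (show k + 1 ≤ i by omega)
        have h5 := add_one_le_psum (i := k) fun l hl => hc l (by omega)
        exact ⟨by omega, by omega⟩
    rw [h3, card_range]

theorem blk_iff {c : ℕ → ℕ} {i n : ℕ} (hc : ∀ k ≤ i, 1 ≤ c k) (s : Fin n) :
    blk c n s = i ↔ ∑ k ∈ range i, c k ≤ s.1 ∧ s.1 < ∑ k ∈ range (i + 1), c k :=
  bidx_iff hc s.1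

/-- The inclusion of the variables off the block `j`. -/
theorem sg_facts {c : ℕ → ℕ} {j n : ℕ} (hc : ∀ k ≤ j, 1 ≤ c k) (hn : ∑ k ∈ range (j + 1), c k ≤ n) :
    ∃ σ : Fin (n - c j) → Fin n, Function.Injective σ ∧
      (∀ s, (∃ x, σ x = s) ↔ blk c n s ≠ j) ∧
        ∀ x, ∀ i < j, blk c n (σ x) = i ↔ blk c (n - c j) x = i := by
  have hS := sum_range_succ c j
  set S := ∑ k ∈ range j, c k with hSdef
  have hlt : ∀ x : Fin (n - c j), (if x.1 < S then x.1 else x.1 + c j) < n := by
    intro x
    have := x.2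
    split_ifs <;> omega
  refine ⟨fun x => ⟨if x.1 < S then x.1 else x.1 + c j, hlt x⟩, ?_, ?_, ?_⟩
  · intro x y hxy
    have h := congrArg Fin.val hxy
    apply Fin.ext
    simp only at h
    split_ifs at h <;> omega
  · intro s
    rw [Ne, blk_iff hc s, hS, ← hSdef]
    have hs := s.2
    constructor
    · rintro ⟨x, rfl⟩
      have hx := x.2
      simp only
      split_ifs <;> omega
    · intro h
      by_cases hs1 : s.1 < S
      · refine ⟨⟨s.1, by omega⟩, Fin.ext ?_⟩
        simp only [if_pos hs1]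
      · have h2 : ¬ (s.1 - c j < S) := by omega
        refine ⟨⟨s.1 - c j, by omega⟩, Fin.ext ?_⟩
        simp only [if_neg h2]
        omega
  · intro x i hi
    rw [blk_iff (fun k hk => hc k (by omega)), blk_iff (fun k hk => hc k (by omega))]
    have h1 := psum_mono c (show i + 1 ≤ j by omega)
    have h2 := psum_mono c (show i ≤ i + 1 by omega)
    rw [← hSdef] at h1
    simp only
    split_ifs with hx
    · exact Iff.rfl
    · constructor
      · rintro ⟨_, h3⟩
        omega
      · rintro ⟨_, h3⟩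
        omega

theorem card_blk {c : ℕ → ℕ} {i n : ℕ} (hc : ∀ k ≤ i, 1 ≤ c k) (hn : ∑ k ∈ range (i + 1), c k ≤ n) :
    (univ.filter fun s : Fin n => blk c n s = i).card = c i := by
  have h1 : (univ.filter fun s : Fin n => blk c n s = i).map Fin.valEmbedding =
      Ico (∑ k ∈ range i, c k) (∑ k ∈ range (i + 1), c k) := by
    ext s
    rw [mem_map, mem_Ico]
    constructor
    · rintro ⟨t, ht, rfl⟩
      exact (blk_iff hc t).1 (mem_filter.1 ht).2
    · intro hs
      exact ⟨⟨s, by omega⟩, mem_filter.2 ⟨mem_univ _, (blk_iff hc _).2 hs⟩, rfl⟩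
  rw [← card_map Fin.valEmbedding, h1, Nat.card_Ico, sum_range_succ]
  omega

end Pool.Agent.GD
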