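import Pool.Agent.GD.ST.Sat
import Pool.Agent.GD.ST.Blk

/-!
# General d: the general dimension depends only on the sizes of the blocks
-/

set_option autoImplicit false
set_option linter.unusedSectionVars false

namespace Pool.Agent.GD

open Finset MvPolynomial Pool.Agent.H51.TB Pool.Agent.V7.ST

/-- The blocks which occur in an object are `< J`. -/
def Kd.Blk (J : ℕ) : Kd → Prop
  | .ord _ A => A ⊆ range J
  | .cl _ _ i As => i < J ∧ ∀ A ∈ As, A ⊆ range J

variable {ν ν' : Type} [Fintype ν] [DecidableEq ν] [Fintype ν'] [DecidableEq ν']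

section ren

variable {d J : ℕ} {β : ν → ℕ} {β' : ν' → ℕ} (φ : ν ≃ ν')
  (hβ : ∀ s, ∀ i < J, β s = i ↔ β' (φ s) = i)

include hβ

private theorem mem_ren {A : Finset ℕ} (hA : A ⊆ range J) (s : ν) : β s ∈ A ↔ β' (φ s) ∈ A := by
  constructor
  · intro h
    rwa [(hβ s (β s) (mem_range.1 (hA h))).1 rfl]
  · intro h
    rwa [(hβ s (β' (φ s)) (mem_range.1 (hA h))).2 rfl]

omit hβ [Fintype ν] [DecidableEq ν] [Fintype ν'] [DecidableEq ν'] in
private theorem getD_sub {As : List (Finset ℕ)} (h : ∀ A ∈ As, A ⊆ range J) (x : ℕ) :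
    As.getD x ∅ ⊆ range J := by
  rcases Nat.lt_or_ge x As.length with hx | hx
  · rw [List.getD_eq_getElem _ _ hx]
    exact h _ (List.getElem_mem hx)
  · rw [List.getD_eq_default _ _ hx]
    exact empty_subset _

private theorem msk_ren {A : Finset ℕ} (hA : A ⊆ range J) (q : ν → ℂ) (q' : ν' → ℂ) (s : ν)
    (h : q s = q' (φ s)) : Pool.Agent.V7.msk β A q s = Pool.Agent.V7.msk β' A q' (φ s) := by
  unfold Pool.Agent.V7.msk
  simp only [mem_ren φ hβ hA s, h]

private theorem pt_ren (k : Kd) (hk : k.Blk J) (x : Fin (d + 1)) (q : ν' × Fin (d + 1) → ℂ)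
    (s : ν) : pt β k x (fun z => q (φ z.1, z.2)) s = pt β' k x q (φ s) := by
  rcases k with ⟨e, A⟩ | ⟨e, dl, i, As⟩
  · exact msk_ren φ hβ hk (fun s => q (φ s, 0)) (fun s => q (s, 0)) s rfl
  · show Pool.Agent.V7.msk β (As.getD x ∅) (fun s =>
      if β s = i ∧ x.1 + 1 = As.length then
        - ∑ y : Fin (d + 1), if y.1 + 1 < As.length then q (φ s, y) else 0
      else q (φ s, x)) s = Pool.Agent.V7.msk β' (As.getD x ∅) (fun s =>
      if β' s = i ∧ x.1 + 1 = As.length then
        - ∑ y : Fin (d + 1), if y.1 + 1 < As.length then q (s, y) else 0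
      else q (s, x)) (φ s)
    refine msk_ren φ hβ (getD_sub hk.2 _) _ _ s ?_
    simp only [hβ s i hk.1]

private theorem uu_ren (k : Kd) (hk : k.Blk J) (q : ν' × Fin (d + 1) → ℂ) (s : ν) :
    uu β k (fun z => q (φ z.1, z.2)) s = uu β' k q (φ s) := by
  unfold uu
  refine sum_congr rfl fun x _ => ?_
  rw [pt_ren φ hβ k hk]

private theorem zz_ren {i : ℕ} (hi : i < J) (q : ν' × Fin (d + 1) → ℂ) (s : ν) :
    zz β i (fun z => q (φ z.1, z.2)) s = zz β' i q (φ s) := by
  unfold zz
  simp only [hβ s i hi]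

private theorem mem_Ex_ren {I : Finset ℕ} (hI : I ⊆ range J) {D : ℕ} (a : ν' → ℕ) :
    a ∈ Ex β' D I ↔ (fun s => a (φ s)) ∈ Ex β D I := by
  rw [mem_Ex, mem_Ex, Equiv.sum_comp φ a]
  refine and_congr_right fun _ => forall_congr' fun i => forall_congr' fun hi => ?_
  have hiJ := mem_range.1 (hI hi)
  constructor
  · rintro ⟨s, h1, h2⟩
    refine ⟨φ.symm s, ?_, ?_⟩
    · rw [hβ _ i hiJ, Equiv.apply_symm_apply]
      exact h1
    · rw [Equiv.apply_symm_apply]
      exact h2
  · rintro ⟨s, h1, h2⟩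
    exact ⟨φ s, (hβ s i hiJ).1 h1, h2⟩

end ren

section ren2

variable (φ : ν ≃ ν')

private theorem rename_lf (p : ν' → ℂ) :
    rename φ (lf fun s => p (φ s) : MvPolynomial ν ℂ) = lf p := by
  unfold lf
  rw [map_sum]
  simp only [map_mul, rename_C, rename_X]
  exact Equiv.sum_comp φ fun s => C (p s) * X s

private theorem rename_mon (b : ν' → ℕ) :
    rename φ (mon ℂ fun s => b (φ s) : MvPolynomial ν ℂ) = mon ℂ b := by
  unfold mon
  rw [map_prod]
  simp only [map_pow, rename_X]
  exact Equiv.prod_comp φ fun s => (X s : MvPolynomial ν' ℂ) ^ b s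

private theorem fac_ren (b : ν' → ℕ) : fac (fun s => b (φ s)) = fac b :=
  Equiv.prod_comp φ fun s => (b s).factorial

variable {A : Finset (ν → ℕ)} {A' : Finset (ν' → ℕ)}
  (hA : ∀ a : ν' → ℕ, a ∈ A' ↔ (fun s => a (φ s)) ∈ A)

/-- The bijection of the exponents. -/
private def exR : {a // a ∈ A'} ≃ {a // a ∈ A} where
  toFun a := ⟨fun s => a.1 (φ s), (hA a.1).1 a.2⟩
  invFun a := ⟨fun s => a.1 (φ.symm s), (hA _).2 (by simp)⟩
  left_inv a := by
    apply Subtype.ext
    funext s
    show a.1 (φ (φ.symm s)) = a.1 s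
    rw [Equiv.apply_symm_apply]
  right_inv a := by
    apply Subtype.ext
    funext s
    show a.1 (φ.symm (φ s)) = a.1 s
    rw [Equiv.symm_apply_apply]

private theorem ext0_ren (f : {a // a ∈ A} → ℂ) (a : ν' → ℕ) :
    ext0 A' (fun a => f (exR φ hA a)) a = ext0 A f (fun s => a (φ s)) := by
  unfold ext0
  by_cases h : a ∈ A'
  · rw [dif_pos h, dif_pos ((hA a).1 h)]
    rfl
  · rw [dif_neg h, dif_neg (fun h1 => h ((hA a).2 h1))]

/-- The functional of the renamed form. -/
private theorem Fn_ren (f : {a // a ∈ A} → ℂ) (y : MvPolynomial ν ℂ) :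
    Fn (ext0 A' fun a => f (exR φ hA a)) (rename φ y) = Fn (ext0 A f) y := by
  have h : (Fn (ext0 A' fun a => f (exR φ hA a))).comp (rename φ).toLinearMap =
      Fn (ext0 A f) := by
    refine mon_ext fun b => ?_
    have h1 := rename_mon φ fun s => b (φ.symm s)
    simp only [Equiv.symm_apply_apply] at h1
    have h2 := fac_ren φ fun s => b (φ.symm s)
    simp only [Equiv.symm_apply_apply] at h2
    show Fn (ext0 A' fun a => f (exR φ hA a)) (rename φ (mon ℂ b)) = _
    have h3 := ext0_ren φ hA f fun s => b (φ.symm s)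
    simp only [Equiv.symm_apply_apply] at h3
    rw [h1, Fn_mon, Fn_mon, h2, h3]
  exact LinearMap.congr_fun h y

end ren2

private theorem sat_ren {d J : ℕ} {β : ν → ℕ} {β' : ν' → ℕ} (φ : ν ≃ ν')
    (hβ : ∀ s, ∀ i < J, β s = i ↔ β' (φ s) = i) {A : Finset (ν → ℕ)} {A' : Finset (ν' → ℕ)}
    (hA : ∀ a : ν' → ℕ, a ∈ A' ↔ (fun s => a (φ s)) ∈ A) (I : Finset ℕ) (k : Kd) (hk : k.Blk J)
    (q : ν' × Fin (d + 1) → ℂ) (f : {a // a ∈ A} → ℂ) :
    Sat β' I k q (Fn (ext0 A' fun a => f (exR φ hA a))) ↔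
      Sat β I k (fun z => q (φ z.1, z.2)) (Fn (ext0 A f)) := by
  have hpt : ∀ x : Fin (d + 1), rename φ (lf (pt β k x fun z => q (φ z.1, z.2))) =
      lf (pt β' k x q) := by
    intro x
    rw [← rename_lf φ (pt β' k x q)]
    congr 2
    funext s
    exact pt_ren φ hβ k hk x q s
  refine and_congr ?_ ?_
  · refine forall_congr' fun x => forall_congr' fun _ => ?_
    constructor
    · intro h y
      have h1 := h (rename φ y)
      rw [← hpt x, ← map_pow, ← map_mul, Fn_ren] at h1
      exact h1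
    · intro h y
      have h1 := h (rename φ.symm y)
      rw [← Fn_ren φ hA, map_mul (rename φ), map_pow (rename φ), hpt x, rename_rename,
        Equiv.self_comp_symm, rename_id_apply] at h1
      exact h1
  · rcases k with ⟨e, B⟩ | ⟨e, dl, i, As⟩
    · exact Iff.rfl
    · have hu : rename φ (lf (uu β (.cl e dl i As) fun z : ν × Fin (d + 1) => q (φ z.1, z.2))) =
          lf (uu β' (.cl e dl i As) q) := by
        rw [← rename_lf φ (uu β' (.cl e dl i As) q)]
        congr 2
        funext s
        exact uu_ren φ hβ _ hk q s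
      have hz : rename φ (lf (zz β i fun z : ν × Fin (d + 1) => q (φ z.1, z.2))) =
          lf (zz β' i q) := by
        rw [← rename_lf φ (zz β' i q)]
        congr 2
        funext s
        exact zz_ren φ hβ hk.1 q s
      refine forall_congr' fun _ => forall_congr' fun κ => forall_congr' fun _ =>
        forall_congr' fun _ => ?_
      constructor
      · intro h b hb
        have h1 := h (fun s => b (φ.symm s)) fun s hs => hb _ (by
          rw [hβ _ i hk.1, Equiv.apply_symm_apply]
          exact hs)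
        have h2 := rename_mon φ fun s => b (φ.symm s)
        simp only [Equiv.symm_apply_apply] at h2
        rw [← hu, ← hz, ← h2, ← map_pow, ← map_pow, ← map_mul, ← map_mul, Fn_ren] at h1
        exact h1
      · intro h b hb
        have h1 := h (fun s => b (φ s)) fun s hs => hb _ ((hβ s i hk.1).1 hs)
        rw [← Fn_ren φ hA, map_mul (rename φ), map_mul (rename φ), map_pow (rename φ),
          map_pow (rename φ), hu, hz, rename_mon] at h1
        exact h1

private theorem finrank_ren {d D J : ℕ} (hD : D ≤ d) {β : ν → ℕ} {β' : ν' → ℕ} (φ : ν ≃ ν')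
    (hβ : ∀ s, ∀ i < J, β s = i ↔ β' (φ s) = i) {I : Finset ℕ} (hI : I ⊆ range J) {κ : Type}
    (m : κ → Kd) (hm : ∀ i, (m i).Blk J) (p : κ → ν' × Fin (d + 1) → ℂ) :
    Module.finrank ℂ ((LS d D β' I).V m p) =
      Module.finrank ℂ ((LS d D β I).V m fun i z => p i (φ z.1, z.2)) := by
  have h : (LS d D β' I).V m p = ((LS d D β I).V m fun i z => p i (φ z.1, z.2)).map
      (LinearEquiv.funCongrLeft ℂ ℂ (exR φ (mem_Ex_ren φ hβ hI))).toLinearMap := by
    ext f
    rw [Submodule.mem_map]
    constructor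
    · intro hf
      refine ⟨fun a => f ((exR φ (mem_Ex_ren φ hβ hI)).symm a), ?_, ?_⟩
      · rw [mem_LS hD] at hf ⊢
        intro i
        rw [← sat_ren φ hβ (mem_Ex_ren φ hβ hI) I (m i) (hm i) (p i)]
        simpa using hf i
      · funext a
        show f ((exR φ (mem_Ex_ren φ hβ hI)).symm (exR φ (mem_Ex_ren φ hβ hI) a)) = f a
        rw [Equiv.symm_apply_apply]
    · rintro ⟨g, hg, rfl⟩
      rw [mem_LS hD] at hg
      rw [mem_LS hD]
      intro i
      exact (sat_ren φ hβ (mem_Ex_ren φ hβ hI) I (m i) (hm i) (p i) g).2 (hg i)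
  rw [h]
  exact LinearEquiv.finrank_map_eq _ _

/-- Renaming the variables. -/
theorem HI_equiv {d D : ℕ} (hD : D ≤ d) {β : ν → ℕ} {β' : ν' → ℕ} {J : ℕ} (φ : ν ≃ ν')
    (hβ : ∀ s, ∀ i < J, β s = i ↔ β' (φ s) = i) {I : Finset ℕ} (hI : I ⊆ range J)
    (ms : Multiset Kd) (hm : ∀ k ∈ ms, k.Blk J) : HI d D β I ms = HI d D β' I ms := by
  unfold HI gM
  have hm' : ∀ i : Fin ms.toList.length, (ms.toList.get i).Blk J := fun i =>
    hm _ (Multiset.mem_toList.1 (List.get_mem _ i))
  apply le_antisymm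
  · obtain ⟨p, hp⟩ := gd_attained (LS d D β' I) fun i : Fin ms.toList.length => ms.toList.get i
    rw [← hp, finrank_ren hD φ hβ hI _ hm']
    exact gd_le _ _ _
  · obtain ⟨p, hp⟩ := gd_attained (LS d D β I) fun i : Fin ms.toList.length => ms.toList.get i
    have h1 := finrank_ren hD φ hβ hI _ hm' fun i z => p i (φ.symm z.1, z.2)
    have h2 : (fun (i : Fin ms.toList.length) (z : ν × Fin (d + 1)) =>
        p i (φ.symm (φ z.1), z.2)) = p := by
      funext i z
      rw [Equiv.symm_apply_apply]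
    rw [h2, hp] at h1
    rw [← h1]
    exact gd_le _ _ _

/-- The dimension depends only on the numbers of the variables of the blocks. -/
theorem HI_size {d D : ℕ} (hD : D ≤ d) {β : ν → ℕ} {β' : ν' → ℕ} {J : ℕ}
    (h0 : Fintype.card ν = Fintype.card ν')
    (h : ∀ i < J, (univ.filter fun s => β s = i).card = (univ.filter fun s => β' s = i).card)
    {I : Finset ℕ} (hI : I ⊆ range J) (ms : Multiset Kd) (hm : ∀ k ∈ ms, k.Blk J) :
    HI d D β I ms = HI d D β' I ms := by
  have hsum : ∀ {μ : Type} [Fintype μ] [DecidableEq μ] (γ : μ → ℕ),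
      Fintype.card μ = ∑ i ∈ range J, (univ.filter fun s => γ s = i).card +
        (univ.filter fun s => min (γ s) J = J).card := by
    intro μ _ _ γ
    have hmap : Set.MapsTo (fun s => min (γ s) J) ((univ : Finset μ) : Set μ)
        ((range (J + 1) : Finset ℕ) : Set ℕ) := fun s _ => by
      rw [mem_coe, mem_range]
      show min (γ s) J < J + 1
      omega
    rw [← card_univ, card_eq_sum_card_fiberwise hmap, sum_range_succ]
    congr 1
    refine sum_congr rfl fun i hi => ?_
    rw [mem_range] at hi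
    congr 1
    refine filter_congr fun s _ => ?_
    omega
  have hc : ∀ c : ℕ, Nonempty ({s : ν // min (β s) J = c} ≃ {s : ν' // min (β' s) J = c}) := by
    intro c
    refine ⟨Fintype.equivOfCardEq ?_⟩
    rw [Fintype.card_subtype, Fintype.card_subtype]
    rcases lt_trichotomy c J with hcJ | hcJ | hcJ
    · have e1 : (univ.filter fun s => min (β s) J = c) = univ.filter fun s => β s = c :=
        filter_congr fun s _ => by omega
      have e2 : (univ.filter fun s => min (β' s) J = c) = univ.filter fun s => β' s = c :=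
        filter_congr fun s _ => by omega
      rw [e1, e2, h c hcJ]
    · have h1 := hsum β
      have h2 := hsum β'
      rw [sum_congr rfl fun i hi => h i (mem_range.1 hi)] at h1
      rw [hcJ]
      omega
    · have e1 : (univ.filter fun s => min (β s) J = c) = ∅ :=
        filter_eq_empty_iff.2 fun s _ => by omega
      have e2 : (univ.filter fun s => min (β' s) J = c) = ∅ :=
        filter_eq_empty_iff.2 fun s _ => by omega
      rw [e1, e2, card_empty, card_empty]
  let e : ∀ c : ℕ, {s : ν // min (β s) J = c} ≃ {s : ν' // min (β' s) J = c} := fun c => (hc c).some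
  refine HI_equiv hD (Equiv.ofFiberEquiv e) ?_ hI ms hm
  intro s i hi
  have h1 : min (β' (Equiv.ofFiberEquiv e s)) J = min (β s) J := Equiv.ofFiberEquiv_map e s
  omega

/-- Every partition into blocks of the sizes `c i`, `i < J`, gives `HL`. -/
theorem HI_eq_HL {d D j J : ℕ} (hD : D ≤ d) (hj : j ≤ J) {β : ν → ℕ} {c : ℕ → ℕ}
    (hc : ∀ i < J, 1 ≤ c i) (h : ∀ i < J, (univ.filter fun s => β s = i).card = c i)
    (ms : Multiset Kd) (hm : ∀ k ∈ ms, k.Blk J) :
    HI d D β (range j) ms = HL d D c (Fintype.card ν) j ms := by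
  unfold HL
  refine HI_size hD (by rw [Fintype.card_fin]) ?_ (range_mono hj) ms hm
  intro i hi
  rw [h i hi, card_blk (fun k hk => hc k (by omega))]
  have h1 : ∑ k ∈ range (i + 1), c k = ∑ k ∈ range (i + 1), (univ.filter fun s => β s = k).card :=
    sum_congr rfl fun k hk => (h k (by rw [mem_range] at hk; omega)).symm
  rw [h1, ← card_biUnion]
  · exact card_le_univ _
  · intro k _ l _ hkl
    rw [Function.onFun, disjoint_left]
    intro s hs hs'
    exact hkl ((mem_filter.1 hs).2.symm.trans (mem_filter.1 hs').2)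

end Pool.Agent.GD
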