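import Pool.Agent.GD.ST.Core

/-!
# General d, step: one object, trace and residual
-/

set_option autoImplicit false
set_option linter.unusedSectionVars false

namespace Pool.Agent.GD

open Finset Polynomial
open Pool.Agent.V7 (msk)

theorem mem_inter {As : List (Finset ℕ)} (h : 1 ≤ As.length) {x : ℕ} :
    x ∈ inter As ↔ ∀ A ∈ As, x ∈ A := by
  rcases As with _ | ⟨A, As⟩
  · exact absurd h (by simp)
  · unfold inter
    rw [mem_filter]
    constructor
    · exact fun h => h.2
    · exact fun h => ⟨h A (by simp), h⟩

theorem getD_mem {As : List (Finset ℕ)} {x : ℕ} (h : x < As.length) : As.getD x ∅ ∈ As := by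
  rw [List.getD_eq_getElem _ _ h]
  exact List.getElem_mem h

section

variable {ν ν' : Type} [Fintype ν] [DecidableEq ν] [Fintype ν'] [DecidableEq ν'] {d : ℕ}
  {β : ν → ℕ} {β' : ν' → ℕ} {σ : ν' → ν} {j : ℕ}

/-- The coefficients of the trace. -/
noncomputable def trC (σ : ν' → ν) (B : ℕ) (φ : (ν → ℕ) → ℂ[X]) (a : ν' → ℕ) : ℂ :=
  (φ (Function.extend σ a 0)).coeff B

theorem Fn_trC (hσ : Function.Injective σ) (B : ℕ) (φ : (ν → ℕ) → ℂ[X]) (P : MvPolynomial ν' ℂ) :
    Fn (trC σ B φ) P =
      (Fn φ (MvPolynomial.rename σ (MvPolynomial.map C P))).coeff B := by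
  rw [Fn_rename hσ, Fn_coeff]
  rfl

theorem map_lf (p : ν → ℂ) : MvPolynomial.map C (lf p) = lf fun s => (C (p s) : ℂ[X]) := lf_map C p

theorem ren_lf (hσ : Function.Injective σ) (p : ν → ℂ) (hp : ∀ s, (¬ ∃ x, σ x = s) → p s = 0) :
    MvPolynomial.rename σ (MvPolynomial.map C (lf fun x => p (σ x))) =
      lf fun s => (C (p s) : ℂ[X]) := by
  rw [map_lf]
  exact rename_lf' hσ (fun s => (C (p s) : ℂ[X])) fun s hs => by rw [hp s hs, map_zero]

/-- A point of the trace. -/
theorem tr_pt (hσ : Function.Injective σ) {φ : (ν → ℕ) → ℂ[X]} {B E : ℕ} (p : ν → ℂ)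
    (hp : ∀ s, (¬ ∃ x, σ x = s) → p s = 0)
    (h : ∀ y, (Fn φ (lf (fun s => C (p s)) ^ E * y)).coeff B = 0) (y : MvPolynomial ν' ℂ) :
    Fn (trC σ B φ) (lf (fun x => p (σ x)) ^ E * y) = 0 := by
  rw [Fn_trC hσ, map_mul, map_pow, map_mul, map_pow, ren_lf hσ p hp]
  exact h _

theorem not_im (him : ∀ s, (∃ x, σ x = s) ↔ β s ≠ j) {s : ν} (hs : ¬ ∃ x, σ x = s) : β s = j := by
  by_contra h
  exact hs ((him s).2 h)

theorem blk_im (him : ∀ s, (∃ x, σ x = s) ↔ β s ≠ j) (hβ : ∀ x, ∀ i < j, β (σ x) = i ↔ β' x = i)
    {A : Finset ℕ} (hA : A ⊆ range (j + 1)) (x : ν') : β' x ∈ A.erase j ↔ β (σ x) ∈ A := by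
  have h1 : β (σ x) ≠ j := (him _).1 ⟨x, rfl⟩
  constructor
  · intro h
    have h2 := mem_of_mem_erase h
    have h3 := mem_range.1 (hA h2)
    have h4 := ne_of_mem_erase h
    rw [(hβ x (β' x) (by omega)).2 rfl]
    exact h2
  · intro h
    have h3 := mem_range.1 (hA h)
    rw [(hβ x (β (σ x)) (by omega)).1 rfl]
    exact mem_erase.2 ⟨h1, h⟩

/-- The sum of the members vanishes on the block `i`. -/
theorem uu_zero {e dl i : ℕ} {As : List (Finset ℕ)} (hl : 1 ≤ As.length) (hlen : As.length ≤ d + 1)
    (hiA : ∀ A ∈ As, i ∉ A) (q : ν × Fin (d + 1) → ℂ) {s : ν} (hs : β s = i) :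
    uu β (.cl e dl i As) q s = 0 := by
  have h5 : ∀ y : Fin (d + 1), β s ∉ As.getD y ∅ := by
    intro y hy
    by_cases h6 : y.1 < As.length
    · exact hiA _ (getD_mem h6) (hs ▸ hy)
    · rw [List.getD_eq_default _ _ (by omega)] at hy
      exact notMem_empty _ hy
  have h6 : ∀ y : Fin (d + 1), (if y.1 < As.length then pt β (.cl e dl i As) y q s else 0) =
      (if y.1 + 1 < As.length then q (s, y) else 0) +
        (if y.1 + 1 = As.length then - ∑ y : Fin (d + 1),
          (if y.1 + 1 < As.length then q (s, y) else 0) else 0) := by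
    intro y
    have h0 : pt β (.cl e dl i As) y q s = if y.1 + 1 = As.length then - ∑ y : Fin (d + 1),
        (if y.1 + 1 < As.length then q (s, y) else 0) else q (s, y) := by
      simp only [pt, msk, if_neg (h5 y)]
      simp only [hs, true_and]
    rw [h0]
    rcases Nat.lt_trichotomy (y.1 + 1) As.length with h7 | h7 | h7
    · rw [if_pos (by omega), if_neg h7.ne, if_pos h7, if_neg h7.ne, add_zero]
    · rw [if_pos (by omega), if_pos h7, if_neg (by omega), if_pos h7, zero_add]
    · rw [if_neg (by omega), if_neg (by omega), if_neg (by omega), zero_add]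
  rw [uu_cl, sum_congr rfl fun y _ => h6 y, sum_add_distrib]
  have h7 : ∑ y : Fin (d + 1), (if y.1 + 1 = As.length then - ∑ y : Fin (d + 1),
      (if y.1 + 1 < As.length then q (s, y) else 0) else 0) =
      - ∑ y : Fin (d + 1), (if y.1 + 1 < As.length then q (s, y) else 0) := by
    rw [sum_eq_single (⟨As.length - 1, by omega⟩ : Fin (d + 1))]
    · rw [if_pos (by show As.length - 1 + 1 = As.length; omega)]
    · intro y _ hy
      rw [if_neg]
      intro h8
      exact hy (Fin.ext (by show y.1 = As.length - 1; omega))
    · intro h8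
      exact absurd (mem_univ _) h8
  rw [h7, add_neg_cancel]

/-- The conditions of the trace. -/
theorem sat_trace (hσ : Function.Injective σ) (him : ∀ s, (∃ x, σ x = s) ↔ β s ≠ j)
    (hβ : ∀ x, ∀ i < j, β (σ x) = i ↔ β' x = i) (k : Kd) (hk : k.Ok d (j + 1))
    (q : ν × Fin (d + 1) → ℂ) (φ : (ν → ℕ) → ℂ[X]) (h : US β j k q (Fn φ)) {B : ℕ}
    (hB : B < (d + 1).factorial) (x : Fin (d + 1)) (δ : ν' × Fin (d + 1) → ℂ) (k' : Kd)
    (hk' : trO j k x.1 = some k') :
    Sat β' (range j) k' (Psi β β' σ j k x q δ) (Fn (trC σ B φ)) := by
  rcases k with ⟨e, A⟩ | ⟨e, dl, i, As⟩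
  · -- ordinary points
    simp only [trO] at hk'
    split_ifs at hk' with h1
    · obtain ⟨h1, h2⟩ := h1
      cases hk'
      refine ⟨fun x' _ y => ?_, trivial⟩
      have h3 : pt β' (.ord e (A.erase j)) x' (Psi β β' σ j (.ord e A) x q δ) =
          fun s => pt β (.ord e A) x q (σ s) := by
        funext s
        simp only [pt, msk, Psi, blk_im him hβ hk.2.2 s]
        rfl
      rw [h3]
      refine tr_pt hσ (pt β (.ord e A) x q) ?_ ?_ y
      · intro s hs
        have h4 : β s ∈ A := (not_im him hs).symm ▸ h2
        simp only [pt, msk, if_pos h4]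
      · intro y
        rw [show (Kd.ord e (A.erase j)).ex = e from rfl, us_ord h x y, coeff_zero]
  · obtain ⟨he, hl, htr, hi, hAs⟩ := hk
    have hlen : As.length ≤ d := by
      have h1 : As.length * 1 ≤ As.length * (e - 1) := Nat.mul_le_mul_left _ (by omega)
      unfold trx at htr
      omega
    have hsub : ∀ A ∈ As, A ⊆ range (j + 1) := fun A hA => (hAs A hA).trans (erase_subset _ _)
    have hiA : ∀ A ∈ As, i ∉ A := fun A hA h => (mem_erase.1 (hAs A hA h)).1 rfl
    have hgetD : ∀ y : ℕ, As.getD y ∅ ⊆ range (j + 1) := by
      intro y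
      by_cases hy : y < As.length
      · exact hsub _ (getD_mem hy)
      · rw [List.getD_eq_default _ _ (by omega)]
        exact empty_subset _
    by_cases hij : i = j
    · -- new cluster
      subst hij
      simp only [trO, if_true] at hk'
      split_ifs at hk' with h1
      · cases hk'
        refine ⟨fun x' _ y => ?_, trivial⟩
        have h3 : pt β' (.ord (trx e dl As.length) (inter As)) x'
            (Psi β β' σ i (.cl e dl i As) x q δ) = fun s => uu β (.cl e dl i As) q (σ s) := by
          funext s
          simp only [pt, msk, Psi, if_true, true_and]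
          by_cases h4 : β' s ∈ inter As
          · rw [if_pos h4, uu_cl]
            symm
            refine sum_eq_zero fun y _ => ?_
            split_ifs with h5
            · have h6 : As.getD y ∅ ∈ As := getD_mem h5
              have h7 := (mem_inter hl).1 h4 _ h6
              have h8 : β' s ∈ (As.getD y ∅).erase i := mem_erase.2 ⟨fun h => hiA _ h6 (h ▸ h7), h7⟩
              have h9 := (blk_im him hβ (hsub _ h6) s).1 h8
              simp only [pt, msk, if_pos h9]
            · rfl
          · rw [if_neg h4, if_pos h4]
        rw [h3]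
        have h4 : ∀ s, β s = i → uu β (.cl e dl i As) q s = 0 :=
          fun s hs => uu_zero hl (by omega) hiA q hs
        refine tr_pt hσ (uu β (.cl e dl i As) q) (fun s hs => h4 s (not_im him hs)) ?_ y
        intro y
        have h5 := Fn_dvd (Fn φ) _ _ (ta d dl) (As.length * (e - 1)) dl
          (us_new_sum (by omega) hl h) y
        rw [ta_mul (by unfold trx at htr; omega)] at h5
        exact (X_pow_dvd_iff.1 h5) B hB
    · have hij' : i < j := by omega
      simp only [trO, if_neg hij] at hk'
      by_cases hall : ∀ A ∈ As, j ∈ A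
      · -- old cluster on the subspace
        rw [if_pos hall] at hk'
        split_ifs at hk' with h1
        · cases hk'
          have hpsi : ∀ z, Psi β β' σ j (.cl e dl i As) x q δ z = q (σ z.1, z.2) := by
            intro z
            simp only [Psi, if_neg hij, if_pos hall]
          have hi1 : ∀ s, (β' s = i ↔ β (σ s) = i) := fun s => (hβ s i hij').symm
          have h3 : ∀ (y : Fin (d + 1)) (s : ν'),
              pt β' (.cl e dl i (As.map fun A => A.erase j)) y (Psi β β' σ j (.cl e dl i As) x q δ) s =
                pt β (.cl e dl i As) y q (σ s) := by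
            intro y s
            simp only [pt, msk, hpsi, getD_erase, List.length_map, blk_im him hβ (hgetD y) s, hi1]
          have h4 : ∀ (y : Fin (d + 1)), y.1 < As.length → ∀ s, β s = j →
              pt β (.cl e dl i As) y q s = 0 := by
            intro y hy s hs
            have h5 : β s ∈ As.getD y ∅ := hs.symm ▸ hall _ (getD_mem hy)
            simp only [pt, msk, if_pos h5]
          have h5 : ∀ s, β s = j → uu β (.cl e dl i As) q s = 0 := by
            intro s hs
            rw [uu_cl]
            refine sum_eq_zero fun y _ => ?_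
            split_ifs with h6
            · exact h4 y h6 s hs
            · rfl
          have h6 : ∀ s, β s = j → zz β i q s = 0 := by
            intro s hs
            have h7 : β s ≠ i := fun h => hij (h.symm.trans hs)
            simp only [zz, if_neg h7]
          refine ⟨fun x' hx' y => ?_, fun _ κ h1 h2 b hb => ?_⟩
          · simp only [Kd.nm, List.length_map] at hx'
            rw [show pt β' (.cl e dl i (As.map fun A => A.erase j)) x'
              (Psi β β' σ j (.cl e dl i As) x q δ) = fun s => pt β (.cl e dl i As) x' q (σ s) from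
              funext fun s => h3 x' s]
            refine tr_pt hσ (pt β (.cl e dl i As) x' q) (fun s hs => h4 x' hx' s (not_im him hs)) ?_ y
            intro y
            rw [show (Kd.cl e dl i (As.map fun A => A.erase j)).ex = e from rfl, us_old hij h x' hx' y,
              coeff_zero]
          · have e1 : uu β' (.cl e dl i (As.map fun A => A.erase j))
                (Psi β β' σ j (.cl e dl i As) x q δ) = fun s => uu β (.cl e dl i As) q (σ s) := by
              funext s
              rw [uu_cl, uu_cl, List.length_map]
              refine sum_congr rfl fun y _ => ?_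
              rw [h3]
            have e2 : zz β' i (Psi β β' σ j (.cl e dl i As) x q δ) = fun s => zz β i q (σ s) := by
              funext s
              simp only [zz, hpsi, hi1]
            have e3 : MvPolynomial.rename σ (MvPolynomial.map C
                (lf (fun s => uu β (.cl e dl i As) q (σ s)) ^ (As.length * (e - 1)) *
                  (lf (fun s => zz β i q (σ s)) ^ κ * mon ℂ b))) =
                lf (fun s => (C (uu β (.cl e dl i As) q s) : ℂ[X])) ^ (As.length * (e - 1)) *
                  (lf (fun s => (C (zz β i q s) : ℂ[X])) ^ κ * mon ℂ[X] (Function.extend σ b 0)) := by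
              rw [map_mul, map_mul, map_pow, map_pow, map_mul, map_mul, map_pow, map_pow,
                ren_lf hσ (uu β (.cl e dl i As) q) (fun s hs => h5 s (not_im him hs)),
                ren_lf hσ (zz β i q) (fun s hs => h6 s (not_im him hs)), mon_map, rename_mon hσ]
            rw [e1, e2, List.length_map, Fn_trC hσ, e3,
              us_old_b hij' h κ h1 h2 (Function.extend σ b 0), coeff_zero]
            intro s hs
            obtain ⟨x'', rfl⟩ := (him s).2 (by omega)
            rw [hσ.extend_apply]
            exact hb x'' ((hβ x'' i hij').1 hs)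
      · -- old cluster partly on the subspace
        rw [if_neg hall] at hk'
        split_ifs at hk' with h1
        · obtain ⟨h1, h2⟩ := h1
          cases hk'
          refine ⟨fun x' _ y => ?_, trivial⟩
          have h3 : pt β' (.ord e ((As.getD x ∅).erase j)) x' (Psi β β' σ j (.cl e dl i As) x q δ) =
              fun s => pt β (.cl e dl i As) x q (σ s) := by
            funext s
            by_cases h4 : β' s ∈ (As.getD x ∅).erase j
            · have h5 := (blk_im him hβ (hgetD x) s).1 h4
              simp only [pt, msk, if_pos h4, if_pos h5]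
            · show (if β' s ∈ (As.getD x ∅).erase j then (0 : ℂ) else
                Psi β β' σ j (.cl e dl i As) x q δ (s, 0)) = pt β (.cl e dl i As) x q (σ s)
              rw [if_neg h4]
              simp only [Psi, if_neg hij, if_neg hall]
              simp only [true_and]
              rw [if_pos h4]
          rw [h3]
          refine tr_pt hσ (pt β (.cl e dl i As) x q) ?_ ?_ y
          · intro s hs
            have h4 : β s ∈ As.getD x ∅ := (not_im him hs).symm ▸ h2
            simp only [pt, msk, if_pos h4]
          · intro y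
            rw [show (Kd.ord e ((As.getD x ∅).erase j)).ex = e from rfl, us_old hij h x h1 y,
              coeff_zero]

/-- The conditions of the residual. -/
theorem sat_resid (hσ : Function.Injective σ) (him : ∀ s, (∃ x, σ x = s) ↔ β s ≠ j)
    (k : Kd) (hk : k.Ok d (j + 1)) (q : ν × Fin (d + 1) → ℂ) (φ : (ν → ℕ) → ℂ[X])
    (h : US β j k q (Fn φ))
    (hd : ∀ a : ν' → ℕ, X ^ (d + 1).factorial ∣ φ (Function.extend σ a 0)) :
    Sat β (range (j + 1)) k q (Fn fun a => (φ a).eval 0) := by
  have hev : ∀ P : MvPolynomial ν ℂ[X], (Fn φ P).eval 0 =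
      Fn (fun a => (φ a).eval 0) (MvPolynomial.map (evalRingHom 0) P) := by
    intro P
    have h1 := Fn_map (evalRingHom (0 : ℂ)) φ P
    exact h1
  have hC : ∀ P : MvPolynomial ν ℂ, MvPolynomial.map (evalRingHom 0) (MvPolynomial.map C P) = P := by
    intro P
    rw [MvPolynomial.map_map]
    have h1 : (evalRingHom (0 : ℂ)).comp C = RingHom.id ℂ := by
      ext a
      simp
    rw [h1, MvPolynomial.map_id]
  have hlf : ∀ p : ν → ℂ[X], MvPolynomial.map (evalRingHom 0) (lf p) =
      lf fun s => (p s).eval 0 := fun p => lf_map _ p
  rcases k with ⟨e, A⟩ | ⟨e, dl, i, As⟩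
  · refine ⟨fun x _ y => ?_, trivial⟩
    have h1 := us_ord h x (MvPolynomial.map C y)
    have h2 := congrArg (Polynomial.eval 0) h1
    rw [hev, map_mul, map_pow, hlf, hC, eval_zero] at h2
    simp only [eval_C] at h2
    exact h2
  · obtain ⟨he, hl, htr, hi, hAs⟩ := hk
    have hiA : ∀ A ∈ As, i ∉ A := fun A hA h => (mem_erase.1 (hAs A hA h)).1 rfl
    by_cases hij : i = j
    · subst hij
      refine ⟨fun x hx y => ?_, fun _ κ h1 h2 b hb => ?_⟩
      · have h1 := us_new h x hx (MvPolynomial.map C y)
        have h2 := congrArg (Polynomial.eval 0) h1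
        rw [hev, map_mul, map_pow, hlf, hC, eval_zero] at h2
        have h3 : (fun s => (C (pt β (.cl e dl i As) x q s) +
            (if x.1 = 0 then X ^ ta d dl * C (zz β i q s) else 0) : ℂ[X]).eval 0) =
            pt β (.cl e dl i As) x q := by
          funext s
          have h4 : (0 : ℂ) ^ ta d dl = 0 := zero_pow (by
            have := ta_pos (d := d) (dl := dl) (by unfold trx at htr; omega)
            omega)
          rw [eval_add, eval_C]
          split_ifs
          · rw [eval_mul, eval_pow, eval_X, h4, zero_mul, add_zero]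
          · rw [eval_zero, add_zero]
        rw [h3] at h2
        exact h2
      · have hlen : As.length ≤ d := by
          have h1 : As.length * 1 ≤ As.length * (e - 1) := Nat.mul_le_mul_left _ (by omega)
          unfold trx at htr
          omega
        have h4 : ∀ s, β s = i → uu β (.cl e dl i As) q s = 0 :=
          fun s hs => uu_zero hl (by omega) hiA q hs
        have hdl : dl ≤ d := by
          unfold trx at htr
          omega
        have e3 : MvPolynomial.map (evalRingHom 0)
            (lf (fun s => (C (uu β (.cl e dl i As) q s) : ℂ[X])) ^ (As.length * (e - 1)) *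
              lf (fun s => (C (zz β i q s) : ℂ[X])) ^ (κ - 1 + 1) * mon ℂ[X] b) =
            lf (uu β (.cl e dl i As) q) ^ (As.length * (e - 1)) *
              (lf (zz β i q) ^ κ * mon ℂ b) := by
          rw [map_mul, map_mul, map_pow, map_pow, hlf, hlf, mon_map, Nat.sub_add_cancel h1]
          simp only [eval_C]
          ring
        have h5 := Fn_resid (Fn φ) (lf fun s => (C (uu β (.cl e dl i As) q s) : ℂ[X]))
          (lf fun s => (C (zz β i q s) : ℂ[X])) (ta d dl) (As.length * (e - 1)) (κ - 1) dl
          (ta_pos hdl) (by omega) (us_new_sum (by omega) hl h) (mon ℂ[X] b) (by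
            rw [ta_mul hdl]
            have e4 : MvPolynomial.rename σ (lf (fun s => (C (uu β (.cl e dl i As) q (σ s)) : ℂ[X])) ^
                (As.length * (e - 1) + 1 + (κ - 1)) * mon ℂ[X] fun x => b (σ x)) =
                lf (fun s => (C (uu β (.cl e dl i As) q s) : ℂ[X])) ^
                  (As.length * (e - 1) + 1 + (κ - 1)) * mon ℂ[X] b := by
              rw [map_mul, map_pow, rename_mon hσ,
                rename_lf' hσ (fun s => (C (uu β (.cl e dl i As) q s) : ℂ[X]))
                  fun s hs => by rw [h4 s (not_im him hs), map_zero]]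
              congr 2
              funext s
              by_cases hs : ∃ x, σ x = s
              · obtain ⟨x, rfl⟩ := hs
                rw [hσ.extend_apply]
              · rw [Function.extend_apply' _ _ _ hs, hb s (not_im him hs)]
                rfl
            rw [← e4, Fn_rename hσ]
            exact Fn_dvd_of _ _ hd _)
        rw [hev, e3] at h5
        exact h5
    · have hij' : i < j := by omega
      refine ⟨fun x hx y => ?_, fun _ κ h1 h2 b hb => ?_⟩
      · have h1 := us_old hij h x hx (MvPolynomial.map C y)
        have h2 := congrArg (Polynomial.eval 0) h1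
        rw [hev, map_mul, map_pow, hlf, hC, eval_zero] at h2
        simp only [eval_C] at h2
        exact h2
      · have h3 := us_old_b hij' h κ h1 h2 b hb
        have h4 := congrArg (Polynomial.eval 0) h3
        have e3 : MvPolynomial.map (evalRingHom 0)
            (lf (fun s => (C (uu β (.cl e dl i As) q s) : ℂ[X])) ^ (As.length * (e - 1)) *
              (lf (fun s => (C (zz β i q s) : ℂ[X])) ^ κ * mon ℂ[X] b)) =
            lf (uu β (.cl e dl i As) q) ^ (As.length * (e - 1)) *
              (lf (zz β i q) ^ κ * mon ℂ b) := by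
          rw [map_mul, map_pow, map_mul, map_pow, hlf, hlf, mon_map]
          simp only [eval_C]
        rw [hev, e3, eval_zero] at h4
        exact h4

end

end Pool.Agent.GD
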