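import Pool.Agent.GD.Defs

/-!
# General d: additivity of the virtual dimension

Split the sum over `I' ⊆ range (j + 1)` according to `j ∈ I'`.  `j ∉ I'`: the factor of `k` is the
product of the factors of `un j k` (`I' ⊆ A ↔ I' ⊆ A.erase j`, `inter (As.map (·.erase j)) =
(inter As).erase j`); `I' = insert j I''`: the factor of `k` at `I'` is the product of the factors of
`tr j k` at `I''` (old cluster not wholly on `L_j` and `i ∈ I''`: both are `1`).
-/

set_option autoImplicit false

namespace Pool.Agent.GD

open Finset

theorem mem_interL {As : List (Finset ℕ)} {x : ℕ} : x ∈ inter As ↔ As ≠ [] ∧ ∀ A ∈ As, x ∈ A := by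
  unfold inter
  rw [mem_filter]
  cases As with
  | nil => simp
  | cons B l =>
    simp only [List.headD_cons, ne_eq, reduceCtorEq, not_false_eq_true, true_and]
    exact ⟨fun h => h.2, fun h => ⟨h B (List.mem_cons_self ..), h⟩⟩

theorem interL_map_erase (As : List (Finset ℕ)) (j : ℕ) :
    inter (As.map fun A => A.erase j) = (inter As).erase j := by
  ext x
  rw [mem_interL, mem_erase, mem_interL]
  constructor
  · rintro ⟨h1, h2⟩
    have h3 : As ≠ [] := fun h => h1 (by rw [h]; rfl)
    refine ⟨?_, h3, fun A hA => (mem_erase.1 (h2 _ (List.mem_map_of_mem hA))).2⟩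
    obtain ⟨A, hA⟩ := List.exists_mem_of_ne_nil As h3
    exact (mem_erase.1 (h2 _ (List.mem_map_of_mem hA))).1
  · rintro ⟨h1, h2, h3⟩
    refine ⟨fun h => h2 (List.map_eq_nil_iff.1 h), fun B hB => ?_⟩
    obtain ⟨A, hA, rfl⟩ := List.mem_map.1 hB
    exact mem_erase.2 ⟨h1, h3 A hA⟩

private theorem sub_erase {I' A : Finset ℕ} {j : ℕ} (hj : j ∉ I') : I' ⊆ A.erase j ↔ I' ⊆ A := by
  rw [subset_erase]
  exact ⟨fun h => h.1, fun h => ⟨h, hj⟩⟩

private theorem not_mem_of_sub {I' : Finset ℕ} {j : ℕ} (hI : I' ⊆ range j) : j ∉ I' :=
  fun h => by simpa using hI h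

theorem P_un {d j : ℕ} (k : Kd) (hk : k.Ok d (j + 1)) (I' : Finset ℕ) (hI : I' ⊆ range j) :
    k.P I' = ((un j k).map (Kd.P I')).prod := by
  have hj := not_mem_of_sub hI
  cases k with
  | ord e A =>
    simp only [un, Multiset.map_singleton, Multiset.prod_singleton, Kd.P, sub_erase hj]
  | cl e dl i As =>
    by_cases hij : i = j
    · subst hij
      simp only [un, if_true, Kd.P, if_neg hj, Multiset.map_coe, Multiset.prod_coe, List.map_map,
        Function.comp_def, sub_erase hj]
    · simp only [un, if_neg hij, Multiset.map_singleton, Multiset.prod_singleton, Kd.P,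
        List.length_map, interL_map_erase, List.map_map, Function.comp_def, sub_erase hj,
        sub_erase (A := inter As) (fun h => hj (mem_of_mem_erase h))]

theorem P_tr {d j : ℕ} (k : Kd) (hk : k.Ok d (j + 1)) (I' : Finset ℕ) (hI : I' ⊆ range j) :
    k.P (insert j I') = ((tr j k).map (Kd.P I')).prod := by
  have hj := not_mem_of_sub hI
  cases k with
  | ord e A =>
    by_cases hA : j ∈ A
    · simp only [tr, hA, if_true, Multiset.map_singleton, Multiset.prod_singleton, Kd.P,
        sub_erase hj, insert_subset_iff, true_and]
    · simp only [tr, hA, if_false, Multiset.map_zero, Multiset.prod_zero, Kd.P,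
        insert_subset_iff, false_and]
  | cl e dl i As =>
    obtain ⟨-, hlen, -, -, hAs⟩ := hk
    by_cases hij : i = j
    · subst hij
      simp only [tr, if_true, Multiset.map_singleton, Multiset.prod_singleton, Kd.P,
        mem_insert_self, erase_insert hj]
    · have hne : As ≠ [] := fun h => by rw [h] at hlen; simp at hlen
      have hmem : i ∈ insert j I' ↔ i ∈ I' := by
        rw [mem_insert]
        exact ⟨fun h => h.resolve_left hij, Or.inr⟩
      by_cases hall : ∀ A ∈ As, j ∈ A
      · have hjin : j ∈ inter As := mem_interL.2 ⟨hne, hall⟩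
        simp only [tr, if_neg hij, if_pos hall, Multiset.map_singleton, Multiset.prod_singleton,
          Kd.P, List.length_map, interL_map_erase, List.map_map, Function.comp_def, sub_erase hj,
          sub_erase (A := inter As) (fun h => hj (mem_of_mem_erase h)), hmem,
          erase_insert_of_ne (Ne.symm hij), insert_subset_iff, hjin, true_and]
        split_ifs with h1
        · rfl
        · rfl
        · congr 1
          refine List.map_congr_left fun A hA => ?_
          simp only [hall A hA, true_and]
      · have hjin : j ∉ inter As := fun h => hall (mem_interL.1 h).2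
        simp only [tr, if_neg hij, if_neg hall, Multiset.map_coe, Multiset.prod_coe, List.map_map,
          Function.comp_def, Kd.P, sub_erase hj, hmem, erase_insert_of_ne (Ne.symm hij),
          insert_subset_iff, hjin, false_and, if_false]
        split_ifs with h1
        · symm
          apply List.prod_eq_one
          intro x hx
          obtain ⟨A, hA, rfl⟩ := List.mem_map.1 hx
          rw [if_neg]
          intro hsub
          have h2 := hAs A (List.mem_filter.1 hA).1 (hsub h1)
          exact (mem_erase.1 h2).1 rfl
        · clear hlen hAs hne hall hjin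
          induction As with
          | nil => simp
          | cons B l ih =>
            by_cases hB : j ∈ B
            · simp only [List.map_cons, List.prod_cons, hB, true_and, List.filter_cons,
                decide_true, if_true]
              rw [ih]
            · simp only [List.map_cons, List.prod_cons, hB, false_and, if_false, List.filter_cons,
                decide_false, one_mul]
              rw [ih]
              rfl

/-- **Additivity.** -/
theorem vd_add {d j : ℕ} (D : ℕ) (c : ℕ → ℕ) (n : ℕ) (ms : Multiset Kd)
    (hk : ∀ k ∈ ms, k.Ok d (j + 1)) :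
    vd D (range j) c n (ms.bind (un j)) =
      vd D (range j) c (n - c j) (ms.bind (tr j)) + vd D (range (j + 1)) c n ms := by
  unfold vd
  rw [range_add_one, sum_powerset_insert (by simp)]
  have h1 : ∀ I' ∈ (range j).powerset,
      ((ms.bind (un j)).map (Kd.P I')).prod = (ms.map (Kd.P I')).prod := by
    intro I' hI'
    rw [Multiset.map_bind, Multiset.prod_bind]
    congr 1
    exact Multiset.map_congr rfl fun k hkm => (P_un k (hk k hkm) I' (mem_powerset.1 hI')).symm
  have h2 : ∀ I' ∈ (range j).powerset,
      ((ms.bind (tr j)).map (Kd.P I')).prod = (ms.map (Kd.P (insert j I'))).prod := by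
    intro I' hI'
    rw [Multiset.map_bind, Multiset.prod_bind]
    congr 1
    exact Multiset.map_congr rfl fun k hkm => (P_tr k (hk k hkm) I' (mem_powerset.1 hI')).symm
  have h3 : ∀ I' ∈ (range j).powerset,
      (-1 : ℤ) ^ I'.card * PowerSeries.coeff D (((ms.bind (tr j)).map (Kd.P I')).prod *
        hs (n - c j - ∑ i ∈ I', c i)) +
      (-1) ^ (insert j I').card * PowerSeries.coeff D ((ms.map (Kd.P (insert j I'))).prod *
        hs (n - ∑ i ∈ insert j I', c i)) = 0 := by
    intro I' hI'
    have hj := not_mem_of_sub (mem_powerset.1 hI')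
    rw [h2 I' hI', card_insert_of_notMem hj, sum_insert hj, Nat.sub_sub, pow_succ]
    ring
  have h4 := sum_congr rfl h3
  rw [sum_add_distrib, sum_const_zero] at h4
  rw [sum_congr rfl fun I' hI' => by rw [h1 I' hI']]
  linarith

end Pool.Agent.GD
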