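import Pool.Agent.GD.ST.Sat
import Pool.Agent.XD.Final
import Pool.Agent.H21.NX.Conv

/-!
# General d: the level `0` is the dimension of the forms with general fat points

`gdim r D m` (`Pool.Agent.H21.NX`): forms of degree `D` in `r + 1` variables, multiplicities `m i`.
As `Pool/Agent/KZ/Base0.lean`.
-/

set_option autoImplicit false
set_option linter.unusedSectionVars false

namespace Pool.Agent.GD

open Finset MvPolynomial Pool.Agent.H51.TB Pool.Agent.V7.ST
open Pool.Agent.V7 (msk)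
open Pool.Agent.H18.Ex (tcr cf sat_of_vanishes)
open Pool.Agent.H18.Fat (fatForms VanishesToOrder mons mem_mons toPoly toPoly_isHomogeneous
  toPoly_injective coeff_shift_toPoly)
open Pool.Agent.H21.NX (gdim Sx mem_Sx gdim_le)
open Pool.Agent.H21.NX.GenBX (gdim_attained)
open Pool.Agent.H21.NX.ConvX (mem_Sx_coe symm_coe finite_fat')

theorem f0_mem_Ex {ν : Type} [Fintype ν] [DecidableEq ν] {β : ν → ℕ} {D : ℕ} {a : ν → ℕ} :
    a ∈ Ex β D ∅ ↔ ∑ s, a s = D := by
  rw [mem_Ex]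
  constructor
  · exact fun h => h.1
  · exact fun h => ⟨h, fun i hi => absurd hi (notMem_empty i)⟩

/-- The conditions of an ordinary point. -/
theorem f0_mem {d D r : ℕ} (hD : D ≤ d) (β : Fin (r + 1) → ℕ) {κ : Type} (e : κ → ℕ)
    (q : κ → Fin (r + 1) × Fin (d + 1) → ℂ) (f : {a // a ∈ Ex β D ∅} → ℂ) :
    f ∈ (LS d D β ∅).V (fun i => Kd.ord (e i) ∅) q ↔ ∀ i, ∀ b : Fin (r + 1) → ℕ,
      ∑ s, b s < D + 1 - e i → ∑ a : {a // a ∈ Ex β D ∅}, f a * tcr (fun s => q i (s, 0)) a.1 b = 0 := by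
  rw [mem_LS hD]
  refine forall_congr' fun i => ?_
  have hpt : ∀ x : Fin (d + 1), pt β (Kd.ord (e i) ∅) x (q i) = fun s => q i (s, 0) := by
    intro x
    funext s
    simp [pt, msk]
  have h1 := sata_iff (R := ℂ) (A := Ex β D ∅) (fun _ h => Ex_sum h) (fun s => q i (s, 0)) f (e i)
  constructor
  · rintro ⟨h, -⟩ b hb
    refine h1.2 ?_ b (by omega)
    have h2 := h 0 (by
      show (0 : Fin (d + 1)).1 < 1
      simp)
    rw [hpt] at h2
    exact h2
  · intro h
    refine ⟨fun x _ => ?_, trivial⟩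
    rw [hpt]
    exact h1.1 fun b hb => h b (by omega)

/-- The coefficient function on a set of exponents. -/
noncomputable def f0Phi {n : ℕ} (A : Finset (Fin n → ℕ)) :
    MvPolynomial (Fin n) ℂ →ₗ[ℂ] ({a // a ∈ A} → ℂ) where
  toFun F := fun e => cf F e.1
  map_add' F G := by
    funext e
    exact coeff_add _ _ _
  map_smul' c F := by
    funext e
    exact coeff_smul _ _ _

theorem f0_le {d D r : ℕ} (hD : D ≤ d) (β : Fin (r + 1) → ℕ) {κ : Type} (e : κ → ℕ)
    (q : κ → Fin (r + 1) × Fin (d + 1) → ℂ) :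
    Module.finrank ℂ (fatForms r D (fun i s => q i (s, 0)) fun i => D + 1 - e i) ≤
      Module.finrank ℂ ((LS d D β ∅).V (fun i => Kd.ord (e i) ∅) q) := by
  classical
  set pos : κ → Fin (r + 1) → ℂ := fun i s => q i (s, 0) with hpos
  set m : κ → ℕ := fun i => D + 1 - e i with hm
  have hsupp : ∀ F ∈ fatForms r D pos m, ∀ α ∈ F.support,
      (⇑α : Fin (r + 1) → ℕ) ∈ Pool.Agent.H18.Ex.Rg D (fun _ => D) := by
    intro F hF α hα
    rw [MvPolynomial.mem_support_iff] at hα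
    have hαd : α ∈ mons (r + 1) D := by
      rw [mem_mons]
      by_contra h
      exact hα (hF.1.coeff_eq_zero h)
    exact mem_Sx_coe.2 hαd
  have hmem : ∀ F ∈ fatForms r D pos m,
      f0Phi (Ex β D ∅) F ∈ (LS d D β ∅).V (fun i => Kd.ord (e i) ∅) q := by
    intro F hF
    rw [f0_mem hD]
    intro i b hb
    have h2 := sat_of_vanishes (hsupp F hF) (hF.2 i) b hb
    show ∑ e : {a // a ∈ Ex β D ∅}, cf F e.1 * tcr (pos i) e.1 b = 0
    rw [← h2]
    rw [Finset.sum_coe_sort (Ex β D ∅) fun e => cf F e * tcr (pos i) e b]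
    refine Finset.sum_congr ?_ fun _ _ => rfl
    ext a
    rw [f0_mem_Ex]
    exact (mem_Sx (ι := Fin (r + 1))).symm
  let Ψ : fatForms r D pos m →ₗ[ℂ] (LS d D β ∅).V (fun i => Kd.ord (e i) ∅) q :=
    ((f0Phi (Ex β D ∅)).comp (fatForms r D pos m).subtype).codRestrict _
      fun F => hmem F.1 F.2
  refine LinearMap.finrank_le_finrank_of_injective (f := Ψ) ?_
  rw [← LinearMap.ker_eq_bot, LinearMap.ker_eq_bot']
  intro F hF
  have h4 : ∀ a ∈ Ex β D ∅, cf F.1 a = 0 := by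
    intro a ha
    have h5 : (Ψ F : {a // a ∈ Ex β D ∅} → ℂ) ⟨a, ha⟩ = 0 := by
      rw [hF]
      rfl
    exact h5
  apply Subtype.ext
  by_contra hne
  obtain ⟨α, hα⟩ := MvPolynomial.ne_zero_iff.1 hne
  have h6 := hsupp F.1 F.2 α (MvPolynomial.mem_support_iff.2 hα)
  have h7 := h4 (⇑α) (by
    rw [f0_mem_Ex]
    exact (mem_Sx (ι := Fin (r + 1))).1 h6)
  unfold cf at h7
  rw [symm_coe] at h7
  exact hα h7

theorem f0_memEx {D r : ℕ} (β : Fin (r + 1) → ℕ) (α : mons (r + 1) D) :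
    (⇑α.1 : Fin (r + 1) → ℕ) ∈ Ex β D ∅ := by
  rw [f0_mem_Ex]
  exact (mem_Sx (ι := Fin (r + 1))).1 (mem_Sx_coe.2 α.2)

/-- The form of a coefficient function. -/
noncomputable def f0Th {r : ℕ} (D : ℕ) (β : Fin (r + 1) → ℕ) :
    ({a // a ∈ Ex β D ∅} → ℂ) →ₗ[ℂ] MvPolynomial (Fin (r + 1)) ℂ :=
  (toPoly (r + 1) D).comp (LinearMap.funLeft ℂ ℂ fun α : mons (r + 1) D =>
    (⟨⇑α.1, f0_memEx β α⟩ : {a // a ∈ Ex β D ∅}))

theorem f0_ge {d D r : ℕ} (hD : D ≤ d) (β : Fin (r + 1) → ℕ) {κ : Type} (e : κ → ℕ)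
    (q : κ → Fin (r + 1) × Fin (d + 1) → ℂ) :
    Module.finrank ℂ ((LS d D β ∅).V (fun i => Kd.ord (e i) ∅) q) ≤
      Module.finrank ℂ (fatForms r D (fun i s => q i (s, 0)) fun i => D + 1 - e i) := by
  classical
  have hfin := finite_fat' (d := D) (fun i s => q i (s, 0)) fun i => D + 1 - e i
  have hmem : ∀ f ∈ (LS d D β ∅).V (fun i => Kd.ord (e i) ∅) q,
      f0Th D β f ∈ fatForms r D (fun i s => q i (s, 0)) fun i => D + 1 - e i := by
    intro f hf
    rw [f0_mem hD] at hf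
    refine ⟨toPoly_isHomogeneous _, fun i b hb => ?_⟩
    have h1 := hf i (⇑b) (by
      rw [Finsupp.degree_eq_sum] at hb
      exact hb)
    show coeff b (Pool.Agent.H18.Fat.shift _ (toPoly (r + 1) D _)) = 0
    rw [coeff_shift_toPoly, ← h1]
    apply sum_bij (fun (α : mons (r + 1) D) _ =>
      (⟨⇑α.1, f0_memEx β α⟩ : {a // a ∈ Ex β D ∅}))
    · intro α _
      exact mem_univ _
    · intro α _ α' _ hαα
      exact Subtype.ext (DFunLike.coe_injective (congrArg Subtype.val hαα))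
    · intro a _
      refine ⟨⟨Finsupp.equivFunOnFinite.symm a.1, ?_⟩, mem_univ _, rfl⟩
      rw [← mem_Sx_coe]
      exact (mem_Sx (ι := Fin (r + 1))).2 (f0_mem_Ex.1 a.2)
    · intro α _
      rfl
  let Ψ : (LS d D β ∅).V (fun i => Kd.ord (e i) ∅) q →ₗ[ℂ]
      fatForms r D (fun i s => q i (s, 0)) fun i => D + 1 - e i :=
    ((f0Th D β).comp ((LS d D β ∅).V (fun i => Kd.ord (e i) ∅) q).subtype).codRestrict _
      fun F => hmem F.1 F.2
  refine LinearMap.finrank_le_finrank_of_injective (f := Ψ) ?_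
  rw [← LinearMap.ker_eq_bot, LinearMap.ker_eq_bot']
  intro f hf
  have h1 : f0Th D β f.1 = 0 := congrArg Subtype.val hf
  have h2 : (LinearMap.funLeft ℂ ℂ fun α : mons (r + 1) D =>
      (⟨⇑α.1, f0_memEx β α⟩ : {a // a ∈ Ex β D ∅})) f.1 = 0 := by
    apply toPoly_injective (r + 1) D
    rw [map_zero]
    exact h1
  apply Subtype.ext
  funext a
  have h3 : Finsupp.equivFunOnFinite.symm a.1 ∈ mons (r + 1) D := by
    rw [← mem_Sx_coe]
    exact (mem_Sx (ι := Fin (r + 1))).2 (f0_mem_Ex.1 a.2)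
  exact congrFun h2 ⟨_, h3⟩

theorem f0_gdim {d D r : ℕ} (hD : D ≤ d) (β : Fin (r + 1) → ℕ) {κ : Type} [Fintype κ]
    (e : κ → ℕ) : (LS d D β ∅).gd (fun i => Kd.ord (e i) ∅) = gdim r D (fun i => D + 1 - e i) := by
  apply le_antisymm
  · obtain ⟨p, hp⟩ := gdim_attained r D (fun i => D + 1 - e i)
    rw [← hp]
    have h1 := f0_ge hD β e fun i x => p i x.1
    exact (gd_le (LS d D β ∅) _ _).trans h1
  · obtain ⟨q, hq⟩ := gd_attained (LS d D β ∅) fun i => Kd.ord (e i) ∅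
    rw [← hq]
    exact (gdim_le r D (fun i => D + 1 - e i) _).trans (f0_le hD β e q)

theorem gdim_eq_HL {d D r : ℕ} (hD : D ≤ d) (c : ℕ → ℕ) {κ : Type} [Fintype κ] (e : κ → ℕ) :
    gdim r D (fun i => D + 1 - e i) =
      HL d D c (r + 1) 0 ((univ : Finset κ).val.map fun i => Kd.ord (e i) ∅) := by
  show _ = gM (LS d D (blk c (r + 1)) (range 0)) _
  rw [range_zero, ← gd_eq_gM, f0_gdim hD]

/-- The level `0` and the numbers of `XD`. -/
theorem FF_eq_HL {d D m t : ℕ} (hD : D ≤ d) (hm : 1 ≤ m) (c : ℕ → ℕ) (e : ℕ → ℕ) :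
    Pool.Agent.XD.FF e m t D =
      HL d D c m 0 ((Multiset.range t).map fun i => Kd.ord (e i) ∅) := by
  obtain ⟨r, rfl⟩ : ∃ r, m = r + 1 := ⟨m - 1, by omega⟩
  have h0 : (univ : Finset (Fin t)).val.map (fun i : Fin t => Kd.ord (e i) ∅) =
      (Multiset.range t).map fun i => Kd.ord (e i) ∅ := by
    have h1 := Fin.univ_val_map (fun i : Fin t => Kd.ord (e i) ∅)
    rw [h1]
    rw [List.ofFn_eq_map]
    show _ = (((List.range t).map fun i => Kd.ord (e i) ∅ : List Kd) : Multiset Kd)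
    rw [← List.map_coe_finRange_eq_range, List.map_map]
    rfl
  rw [← h0, ← gdim_eq_HL hD c fun i : Fin t => e i]
  rfl

/-- The virtual dimension of the level `0`. -/
theorem A_eq_vd {D m t : ℕ} (c : ℕ → ℕ) (e : ℕ → ℕ) : Pool.Agent.XD.A e m t D =
      vd D ∅ c m ((Multiset.range t).map fun i => Kd.ord (e i) ∅) := by
  unfold vd
  simp only [powerset_empty, sum_singleton, card_empty, pow_zero, one_mul, sum_empty, Nat.sub_zero]
  induction t generalizing D with
  | zero =>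
    rw [Pool.Agent.XD.A_zero, Multiset.range_zero, Multiset.map_zero, Multiset.map_zero,
      Multiset.prod_zero, one_mul, hs, PowerSeries.coeff_mk]
  | succ t ih =>
    rw [Pool.Agent.XD.A_succ, Multiset.range_succ, Multiset.map_cons, Multiset.map_cons,
      Multiset.prod_cons]
    have h1 : Kd.P ∅ (Kd.ord (e t) ∅) = 1 - PowerSeries.X ^ e t := by
      simp [Kd.P]
    rw [h1, mul_assoc, sub_mul, one_mul, map_sub, PowerSeries.coeff_X_pow_mul', ih]
    split_ifs with h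
    · rw [ih]
    · rfl

end Pool.Agent.GD
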