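import Pool.Agent.GD.ST.Psi

/-!
# General d, step: the positions of the objects of the trace are general

Every family of positions of the objects of the trace of one object `k` comes from a position of `k` (up to
the coordinates which are not used).  Cases: `ord`: extend by `Function.extend σ`.  New cluster (`i = j`):
for a variable `s` with `β s ∉ inter As` put the value at one member which does not vanish there, `0` at
the others.  Old cluster on `L_j`: extend.  Old cluster with a member `x₀` off `L_j`: the members on `L_j`
get their values; if the last member is on `L_j`, its coordinates in the block `i` are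
`- ∑_(y + 1 < length) q (s, y)`, which is corrected with the member `x₀` (`x₀ + 1 < length` then).
`Kd.Ok`: the sets of a cluster do not contain `i`.
-/

set_option autoImplicit false
set_option linter.unusedSectionVars false

namespace Pool.Agent.GD

open Finset MvPolynomial Pool.Agent.H51.TB
open Pool.Agent.V7 (msk)

/-- the members of a cluster off the block `i` -/
private theorem mem_inter_iff {As : List (Finset ℕ)} (h : 1 ≤ As.length) (a : ℕ) :
    a ∈ inter As ↔ ∀ A ∈ As, a ∈ A := by
  unfold inter
  rw [mem_filter]
  constructor
  · exact fun h1 => h1.2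
  · intro h1
    refine ⟨h1 _ ?_, h1⟩
    cases As with
    | nil => simp at h
    | cons b t => simp

private theorem getD_mem {As : List (Finset ℕ)} {x : ℕ} (h : x < As.length) :
    As.getD x ∅ ∈ As := by
  rw [List.getD_eq_getElem _ _ h]
  exact List.getElem_mem h

private theorem exists_idx {As : List (Finset ℕ)} {A : Finset ℕ} (h : A ∈ As) :
    ∃ x, x < As.length ∧ As.getD x ∅ = A := by
  obtain ⟨x, hx, hA⟩ := List.getElem_of_mem h
  exact ⟨x, hx, by rw [List.getD_eq_getElem _ _ hx]; exact hA⟩

private theorem len_le {d e dl L : ℕ} (he : 2 ≤ e) (h : trx e dl L ≤ d) : L ≤ d := by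
  unfold trx at h
  have h1 : L * 1 ≤ L * (e - 1) := Nat.mul_le_mul_left _ (by omega)
  omega

theorem psi_surj {ν ν' : Type} [Fintype ν] [DecidableEq ν] {d j : ℕ} (β : ν → ℕ) (β' : ν' → ℕ)
    {σ : ν' → ν} (hσ : Function.Injective σ) (him : ∀ s, (∃ x, σ x = s) ↔ β s ≠ j)
    (hβ : ∀ x, ∀ i < j, β (σ x) = i ↔ β' x = i) (k : Kd) (hk : k.Ok d (j + 1))
    (p : Fin (d + 1) → ν' × Fin (d + 1) → ℂ) :
    ∃ (q : ν × Fin (d + 1) → ℂ) (δ : Fin (d + 1) → ν' × Fin (d + 1) → ℂ),
      ∀ x : Fin (d + 1), (trO j k x.1).isSome → ∀ z, Psi β β' σ j k x q (δ x) z = p x z := by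
  classical
  -- the extension of a function from the image of `σ`
  have hext : ∀ (f : ν' → Fin (d + 1) → ℂ), ∃ q : ν × Fin (d + 1) → ℂ,
      ∀ s x, q (σ s, x) = f s x := by
    intro f
    refine ⟨fun w => if h : ∃ s, σ s = w.1 then f h.choose w.2 else 0, fun s x => ?_⟩
    have h : ∃ s', σ s' = (σ s, x).1 := ⟨s, rfl⟩
    have h2 : h.choose = s := hσ h.choose_spec
    show (if h : ∃ s', σ s' = (σ s, x).1 then f h.choose (σ s, x).2 else 0) = _
    rw [dif_pos h, h2]
  have hβj : ∀ s, β (σ s) ≠ j := fun s => (him (σ s)).1 ⟨s, rfl⟩
  have hmem : ∀ (A : Finset ℕ), (∀ a ∈ A, a < j) → ∀ s, β (σ s) ∈ A ↔ β' s ∈ A := by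
    intro A hA s
    constructor
    · intro h
      have := (hβ s _ (hA _ h)).1 rfl
      rw [this]
      exact h
    · intro h
      have := (hβ s _ (hA _ h)).2 rfl
      rw [this]
      exact h
  cases k with
  | ord e A =>
    obtain ⟨q, hq⟩ := hext fun s y => p 0 (s, y)
    refine ⟨q, p, fun x hx z => ?_⟩
    have hx0 : x = 0 := by
      by_contra h0
      have h1 : ¬ (x.1 = 0 ∧ j ∈ A) := fun h => h0 (Fin.ext h.1)
      simp only [trO, if_neg h1] at hx
      simp at hx
    subst hx0
    simp only [Psi]
    split_ifs with hz
    · rw [hq]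
      obtain ⟨s, y⟩ := z
      have hz' : y = 0 := hz
      rw [hz']
    · rfl
  | cl e dl i As =>
    obtain ⟨he, hL, htr, hi, hA⟩ := hk
    have hLd := len_le he htr
    have hAj : ∀ A ∈ As, ∀ a ∈ A, a < j + 1 ∧ a ≠ i := by
      intro A hA' a ha
      have h1 := hA A hA' ha
      rw [mem_erase, mem_range] at h1
      exact ⟨h1.2, h1.1⟩
    by_cases hij : i = j
    · -- a new cluster
      have hIn : ∀ a ∈ inter As, a < j := by
        intro a ha
        rw [mem_inter_iff hL] at ha
        have h1 := hAj _ (getD_mem (x := 0) (by omega)) a (ha _ (getD_mem (by omega)))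
        have h2 : a ≠ j := fun h => h1.2 (h.trans hij.symm)
        omega
      -- a member which does not vanish
      have hex : ∀ s, ∃ y : Fin (d + 1), β (σ s) ∉ inter As →
          y.1 < As.length ∧ β (σ s) ∉ As.getD y.1 ∅ := by
        intro s
        by_cases h : β (σ s) ∈ inter As
        · exact ⟨0, fun h' => absurd h h'⟩
        · have h' := h
          rw [mem_inter_iff hL] at h'
          push Not at h'
          obtain ⟨A, hA1, hA2⟩ := h'
          obtain ⟨y, hy, hyA⟩ := exists_idx hA1
          refine ⟨⟨y, by omega⟩, fun _ => ⟨hy, ?_⟩⟩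
          rw [hyA]
          exact hA2
      choose y₀ hy₀ using hex
      obtain ⟨q, hq⟩ := hext fun s y => if y = y₀ s then p 0 (s, 0) else 0
      refine ⟨q, p, fun x hx z => ?_⟩
      have hx0 : x = 0 := by
        by_contra h0
        have h1 : ¬ (x.1 = 0) := fun h => h0 (Fin.ext h)
        simp only [trO, if_pos hij, if_neg h1] at hx
        simp at hx
      subst hx0
      simp only [Psi, if_pos hij]
      split_ifs with hz
      · obtain ⟨s, y⟩ := z
        obtain ⟨hz1, hz2⟩ := hz
        have hz1' : y = 0 := hz1
        subst hz1'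
        have h3 : β (σ s) ∉ inter As := fun h => hz2 ((hmem _ hIn s).1 h)
        obtain ⟨h4, h5⟩ := hy₀ s h3
        have hbi : ¬ β (σ s) = i := fun h => hβj s (h.trans hij)
        show uu β (.cl e dl i As) q (σ s) = p 0 (s, 0)
        unfold uu
        rw [sum_eq_single (y₀ s)]
        · show (if (y₀ s).1 < As.length then pt β (.cl e dl i As) (y₀ s) q (σ s) else 0) = _
          rw [if_pos h4]
          show (if β (σ s) ∈ As.getD (y₀ s).1 ∅ then 0 else
            if β (σ s) = i ∧ (y₀ s).1 + 1 = As.length then _ else q (σ s, y₀ s)) = _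
          rw [if_neg h5, if_neg fun h => hbi h.1, hq, if_pos rfl]
        · intro x _ hx'
          show (if x.1 < As.length then pt β (.cl e dl i As) x q (σ s) else 0) = 0
          by_cases h6 : x.1 < As.length
          · rw [if_pos h6]
            show (if β (σ s) ∈ As.getD x.1 ∅ then 0 else
              if β (σ s) = i ∧ x.1 + 1 = As.length then _ else q (σ s, x)) = _
            by_cases h7 : β (σ s) ∈ As.getD x.1 ∅
            · rw [if_pos h7]
            · rw [if_neg h7, if_neg fun h => hbi h.1, hq, if_neg hx']
          · rw [if_neg h6]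
        · intro h
          exact absurd (mem_univ _) h
      · rfl
    · -- an old cluster
      have hij' : i < j := by omega
      by_cases hall : ∀ A ∈ As, j ∈ A
      · obtain ⟨q, hq⟩ := hext fun s y => p 0 (s, y)
        refine ⟨q, p, fun x hx z => ?_⟩
        have hx0 : x = 0 := by
          by_contra h0
          have h1 : ¬ (x.1 = 0) := fun h => h0 (Fin.ext h)
          simp only [trO, if_neg hij] at hx
          rw [if_pos hall, if_neg h1] at hx
          simp at hx
        subst hx0
        simp only [Psi, if_neg hij]
        rw [if_pos hall, hq]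
      · have hall' := hall
        push Not at hall'
        obtain ⟨A₀, hA₀, hjA₀⟩ := hall'
        obtain ⟨x₀, hx₀, hx₀A⟩ := exists_idx hA₀
        have hjx₀ : j ∉ As.getD x₀ ∅ := by
          rw [hx₀A]
          exact hjA₀
        -- the correction of the member `x₀`
        obtain ⟨q, hq⟩ := hext fun s y =>
          if β (σ s) = i ∧ y.1 = x₀ ∧ x₀ + 1 < As.length then
            - (∑ y : Fin (d + 1), if y.1 + 1 = As.length then p y (s, 0) else 0) -
              ∑ y : Fin (d + 1), if y.1 + 1 < As.length ∧ y.1 ≠ x₀ then p y (s, 0) else 0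
          else p y (s, 0)
        refine ⟨q, p, fun x hx z => ?_⟩
        have hx1 : x.1 < As.length ∧ j ∈ As.getD x.1 ∅ := by
          by_contra h0
          simp only [trO, if_neg hij] at hx
          rw [if_neg hall, if_neg h0] at hx
          simp at hx
        obtain ⟨hxl, hxj⟩ := hx1
        have hxx₀ : x.1 ≠ x₀ := fun h => hjx₀ (h ▸ hxj)
        simp only [Psi, if_neg hij]
        rw [if_neg hall]
        split_ifs with hz
        · obtain ⟨s, y⟩ := z
          obtain ⟨hz1, hz2⟩ := hz
          have hz1' : y = 0 := hz1
          subst hz1'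
          have hlt : ∀ a ∈ (As.getD x.1 ∅).erase j, a < j := by
            intro a ha
            rw [mem_erase] at ha
            have h1 := hAj _ (getD_mem hxl) a ha.2
            have := ha.1
            omega
          have h3 : β (σ s) ∉ As.getD x.1 ∅ := by
            intro h
            exact hz2 ((hmem _ hlt s).1 (mem_erase.2 ⟨hβj s, h⟩))
          show (if β (σ s) ∈ As.getD x.1 ∅ then 0 else
            if β (σ s) = i ∧ x.1 + 1 = As.length then
              - ∑ y : Fin (d + 1), if y.1 + 1 < As.length then q (σ s, y) else 0
            else q (σ s, x)) = p x (s, 0)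
          rw [if_neg h3]
          by_cases hlast : β (σ s) = i ∧ x.1 + 1 = As.length
          · rw [if_pos hlast]
            obtain ⟨hb, hl⟩ := hlast
            have hx₀' : x₀ + 1 < As.length := by omega
            have h4 : ∀ y : Fin (d + 1), (if y.1 + 1 < As.length then q (σ s, y) else 0) =
                (if y = (⟨x₀, by omega⟩ : Fin (d + 1)) then q (σ s, ⟨x₀, by omega⟩) else 0) +
                  (if y.1 + 1 < As.length ∧ y.1 ≠ x₀ then p y (s, 0) else 0) := by
              intro y
              by_cases hy : y.1 = x₀
              · have hy' : y = (⟨x₀, by omega⟩ : Fin (d + 1)) := Fin.ext hy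
                rw [if_pos (by omega), if_pos hy', if_neg fun h => h.2 hy, add_zero, hy']
              · have hy' : y ≠ (⟨x₀, by omega⟩ : Fin (d + 1)) := fun h => hy (congrArg Fin.val h)
                rw [if_neg hy', zero_add]
                by_cases hy2 : y.1 + 1 < As.length
                · rw [if_pos hy2, if_pos ⟨hy2, hy⟩, hq, if_neg fun h => hy h.2.1]
                · rw [if_neg hy2, if_neg fun h => hy2 h.1]
            rw [sum_congr rfl fun y _ => h4 y, sum_add_distrib, sum_ite_eq' univ, if_pos (mem_univ _),
              hq, if_pos ⟨hb, rfl, hx₀'⟩]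
            have h5 : ∑ y : Fin (d + 1), (if y.1 + 1 = As.length then p y (s, 0) else 0) =
                p x (s, 0) := by
              rw [sum_eq_single x]
              · rw [if_pos hl]
              · intro y _ hy
                rw [if_neg]
                intro h
                exact hy (Fin.ext (by omega))
              · intro h
                exact absurd (mem_univ _) h
            rw [h5]
            ring
          · rw [if_neg hlast, hq, if_neg fun h => hxx₀ h.2.1]
        · rfl

end Pool.Agent.GD
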