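import Pool.Agent.GD.ST.Core2
import Pool.Agent.GD.ST.Opt
import Pool.Agent.GD.ST.Surj
import Pool.Agent.GD.ST.Blk
import Pool.Agent.KZ.Tr

/-!
# General d: the differential Horace step

`step`: if the trace has no solutions, the general dimension of the level `j` is at most the one of the
residual of the level `j + 1`.
-/

set_option autoImplicit false
set_option linter.unusedSectionVars false

namespace Pool.Agent.GD

open Finset Pool.Agent.H51.TB Pool.Agent.V7.ST
open Pool.Agent.V7 (msk)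

section

variable {ν ν' : Type} [Fintype ν] [DecidableEq ν] [Fintype ν'] [DecidableEq ν'] {d : ℕ}
  {β : ν → ℕ} {β' : ν' → ℕ} {σ : ν' → ν} {j : ℕ}

theorem psi_map {R S : Type} [CommRing R] [CommRing S] (g : R →+* S) (k : Kd) (x : Fin (d + 1))
    (q : ν × Fin (d + 1) → R) (δ : ν' × Fin (d + 1) → R) (z : ν' × Fin (d + 1)) :
    g (Psi β β' σ j k x q δ z) =
      Psi β β' σ j k x (fun z => g (q z)) (fun z => g (δ z)) z := by
  rcases k with ⟨e, A⟩ | ⟨e, dl, i, As⟩
  · simp only [Psi]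
    split_ifs <;> rfl
  · simp only [Psi]
    split_ifs
    · exact uu_map g β _ q _
    · rfl
    · rfl
    · exact pt_map g β _ x q _
    · rfl

theorem mem_Ex_extend (hσ : Function.Injective σ) (him : ∀ s, (∃ x, σ x = s) ↔ β s ≠ j)
    (hβ : ∀ x, ∀ i < j, β (σ x) = i ↔ β' x = i) {D : ℕ} (a : ν' → ℕ) :
    Function.extend σ a 0 ∈ Ex β D (range j) ↔ a ∈ Ex β' D (range j) := by
  rw [mem_Ex, mem_Ex]
  have h1 : ∑ s, Function.extend σ a 0 s = ∑ x, a x := by
    symm
    refine Fintype.sum_of_injective σ hσ _ _ ?_ fun x => ?_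
    · intro s hs
      exact Function.extend_apply' _ _ _ fun h => hs h
    · rw [hσ.extend_apply]
  rw [h1]
  refine and_congr_right fun _ => ?_
  constructor
  · intro h i hi
    obtain ⟨s, hs, h3⟩ := h i hi
    rw [mem_range] at hi
    obtain ⟨x, rfl⟩ := (him s).2 (by omega)
    rw [hσ.extend_apply] at h3
    exact ⟨x, (hβ x i hi).1 hs, h3⟩
  · intro h i hi
    obtain ⟨x, hx, h3⟩ := h i hi
    rw [mem_range] at hi
    refine ⟨σ x, (hβ x i hi).2 hx, ?_⟩
    rw [hσ.extend_apply]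
    exact h3

/-- The exponents of the level `j + 1`. -/
theorem mem_Ex_succ {D : ℕ} {a : ν → ℕ} : a ∈ Ex β D (range (j + 1)) ↔
    a ∈ Ex β D (range j) ∧ ∃ s, β s = j ∧ a s ≠ 0 := by
  rw [mem_Ex, mem_Ex]
  constructor
  · rintro ⟨h1, h2⟩
    exact ⟨⟨h1, fun i hi => h2 i (mem_range.2 (by rw [mem_range] at hi; omega))⟩,
      h2 j (mem_range.2 (by omega))⟩
  · rintro ⟨⟨h1, h2⟩, h3⟩
    refine ⟨h1, fun i hi => ?_⟩
    rw [mem_range] at hi
    rcases Nat.lt_or_ge i j with h | h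
    · exact h2 i (mem_range.2 h)
    · obtain rfl : i = j := by omega
      exact h3

theorem extend_comp (hσ : Function.Injective σ) (him : ∀ s, (∃ x, σ x = s) ↔ β s ≠ j) {a : ν → ℕ}
    (ha : ∀ s, β s = j → a s = 0) : Function.extend σ (fun x => a (σ x)) 0 = a := by
  funext s
  by_cases hs : ∃ x, σ x = s
  · obtain ⟨x, rfl⟩ := hs
    rw [hσ.extend_apply]
  · rw [Function.extend_apply' _ _ _ hs, ha s (not_im him hs)]
    rfl

/-- Extension by zero. -/
noncomputable def extL (A A' : Finset (ν → ℕ)) :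
    ({a // a ∈ A'} → ℂ) →ₗ[ℂ] ({a // a ∈ A} → ℂ) where
  toFun g e := ext0 A' g e.1
  map_add' g g' := by
    funext e
    unfold ext0
    rw [Pi.add_apply]
    split_ifs
    · rfl
    · rw [add_zero]
  map_smul' r g := by
    funext e
    unfold ext0
    rw [Pi.smul_apply, smul_eq_mul, RingHom.id_apply]
    split_ifs
    · rfl
    · rw [mul_zero]

/-- The positions of the objects of the trace as polynomials. -/
noncomputable def PhP (β : ν → ℕ) (β' : ν' → ℕ) (σ : ν' → ν) (j : ℕ) {κ : Type} (kk : κ → Kd)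
    (y : κ × Fin (d + 1)) (z : ν' × Fin (d + 1)) :
    MvPolynomial ((κ ⊕ (κ × Fin (d + 1))) × (ν × Fin (d + 1))) ℂ :=
  Psi β β' σ j (kk y.1) y.2 (fun w => MvPolynomial.X (Sum.inl y.1, w))
    (fun w => MvPolynomial.X (Sum.inr y, (σ w.1, w.2))) z

theorem eval_PhP {κ : Type} (kk : κ → Kd) (P : κ ⊕ (κ × Fin (d + 1)) → ν × Fin (d + 1) → ℂ)
    (y : κ × Fin (d + 1)) (z : ν' × Fin (d + 1)) :
    MvPolynomial.eval (fun x => P x.1 x.2) (PhP β β' σ j kk y z) =
      Psi β β' σ j (kk y.1) y.2 (P (Sum.inl y.1)) (fun w => P (Sum.inr y) (σ w.1, w.2)) z := by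
  have h := psi_map (β := β) (β' := β') (σ := σ) (j := j)
    (MvPolynomial.eval fun x : (κ ⊕ (κ × Fin (d + 1))) × (ν × Fin (d + 1)) => P x.1 x.2)
    (kk y.1) y.2 (fun w => MvPolynomial.X (Sum.inl y.1, w))
    (fun w => MvPolynomial.X (Sum.inr y, (σ w.1, w.2))) z
  simp only [MvPolynomial.eval_X] at h
  exact h

theorem PhP_surj (hσ : Function.Injective σ)
    (him : ∀ s, (∃ x, σ x = s) ↔ β s ≠ j) (hβ : ∀ x, ∀ i < j, β (σ x) = i ↔ β' x = i)
    {κ : Type} (kk : κ → Kd) (hk : ∀ i, (kk i).Ok d (j + 1))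
    (p : Sm (fun y : κ × Fin (d + 1) => trO j (kk y.1) y.2.1) → ν' × Fin (d + 1) → ℂ) :
    ∃ p' : κ ⊕ (κ × Fin (d + 1)) → ν × Fin (d + 1) → ℂ, ∀ y z,
      MvPolynomial.eval (fun x => p' x.1 x.2) (PhP β β' σ j kk y.1 z) = p y z := by
  classical
  have h1 : ∀ i : κ, ∃ (q : ν × Fin (d + 1) → ℂ) (δ : Fin (d + 1) → ν' × Fin (d + 1) → ℂ),
      ∀ x : Fin (d + 1), ∀ hx : (trO j (kk i) x.1).isSome, ∀ z,
        Psi β β' σ j (kk i) x q (δ x) z = p ⟨(i, x), hx⟩ z := by
    intro i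
    obtain ⟨q, δ, h2⟩ := psi_surj β β' hσ him hβ (kk i) (hk i)
      (fun x => if hx : (trO j (kk i) x.1).isSome then p ⟨(i, x), hx⟩ else 0)
    refine ⟨q, δ, fun x hx z => ?_⟩
    rw [h2 x hx z, dif_pos hx]
  choose q δ h1 using h1
  have hinj : Function.Injective fun w : ν' × Fin (d + 1) => (σ w.1, w.2) := by
    intro w w' h
    have h2 : (σ w.1, w.2) = (σ w'.1, w'.2) := h
    exact Prod.ext (hσ (Prod.ext_iff.1 h2).1) (Prod.ext_iff.1 h2).2
  refine ⟨Sum.elim q fun y => Function.extend (fun w : ν' × Fin (d + 1) => (σ w.1, w.2))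
    (δ y.1 y.2) 0, ?_⟩
  rintro ⟨⟨i, x⟩, hx⟩ z
  rw [eval_PhP, ← h1 i x hx z]
  congr 1
  funext w
  exact hinj.extend_apply _ _ w

/-- **The step**, for families. -/
theorem step_gd {D : ℕ} (hD : D ≤ d) (hσ : Function.Injective σ)
    (him : ∀ s, (∃ x, σ x = s) ↔ β s ≠ j) (hβ : ∀ x, ∀ i < j, β (σ x) = i ↔ β' x = i)
    {κ : Type} [Fintype κ] (kk : κ → Kd) (hk : ∀ i, (kk i).Ok d (j + 1))
    (h0 : (LS d D β' (range j)).gd
      (Sm.k fun y : κ × Fin (d + 1) => trO j (kk y.1) y.2.1) = 0) :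
    (LS d D β (range j)).gd (Sm.k fun y : κ × Fin (d + 1) => unO j (kk y.1) y.2.1) ≤
      (LS d D β (range (j + 1))).gd kk := by
  classical
  have g1 := gn_gd (LS d D β' (range j)) (Sm.k fun y : κ × Fin (d + 1) => trO j (kk y.1) y.2.1)
  have g2 := Pool.Agent.KZ.gn_sub
    (fun y : Sm (fun y : κ × Fin (d + 1) => trO j (kk y.1) y.2.1) => PhP β β' σ j kk y.1)
    (PhP_surj hσ him hβ kk hk) g1
  have g3 := (gn_gd (LS d D β (range (j + 1))) kk).comap
    (Sum.inl : κ → κ ⊕ (κ × Fin (d + 1))) Sum.inl_injective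
  obtain ⟨P, hP1, hP2⟩ := (g2.and g3).exists
  rw [h0] at hP1
  rw [← hP2]
  have hAj : ∀ a ∈ Ex β D (range j), ∑ s, a s = D := fun a ha => Ex_sum ha
  refine (gd_lim (LS d D β (range j)) _ (fun y => Qn β j (kk y.1.1) y.1.2 (P (Sum.inl y.1.1)))
    (Submodule.map (extL (Ex β D (range j)) (Ex β D (range (j + 1))))
      ((LS d D β (range (j + 1))).V kk fun i => P (Sum.inl i))) ?_).trans
    (Submodule.finrank_map_le _ _)
  intro F hF
  set φ : (ν → ℕ) → Polynomial ℂ := ext0 (Ex β D (range j)) F with hφ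
  have hUS : ∀ i, US β j (kk i) (P (Sum.inl i)) (Fn φ) := by
    intro i x k' hk'
    have hs : (trO j (kk i) x.1).isSome ∨ True := Or.inr trivial
    have hx : (unO j (kk i) x.1).isSome := by rw [hk']; rfl
    have h1 := (sat_iff hD β (range j) hAj _ _ F).1 (hF ⟨(i, x), hx⟩)
    have h2 : Sm.k (fun y : κ × Fin (d + 1) => unO j (kk y.1) y.2.1) ⟨(i, x), hx⟩ = k' := by
      unfold Sm.k
      simp only [hk', Option.get_some]
    rw [h2] at h1
    exact h1
  have hφ0 : ∀ a, a ∉ Ex β D (range j) → φ a = 0 := fun a ha => ext0_not F ha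
  -- the trace
  have htr : ∀ B < (d + 1).factorial, ∀ a, trC σ B φ a = 0 := by
    intro B hB
    have h1 : (fun a : {a // a ∈ Ex β' D (range j)} => trC σ B φ a.1) ∈
        (LS d D β' (range j)).V (Sm.k fun y : κ × Fin (d + 1) => trO j (kk y.1) y.2.1)
          fun y z => MvPolynomial.eval (fun x => P x.1 x.2) (PhP β β' σ j kk y.1 z) := by
      rw [mem_LS hD]
      intro y
      have h2 : ext0 (Ex β' D (range j)) (fun a : {a // a ∈ Ex β' D (range j)} => trC σ B φ a.1) =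
          trC σ B φ := by
        funext a
        by_cases ha : a ∈ Ex β' D (range j)
        · exact ext0_mem _ ⟨a, ha⟩
        · rw [ext0_not _ ha]
          unfold trC
          rw [hφ0 _ fun h => ha ((mem_Ex_extend hσ him hβ a).1 h), Polynomial.coeff_zero]
      rw [h2, show (fun z => MvPolynomial.eval (fun x => P x.1 x.2) (PhP β β' σ j kk y.1 z)) =
        Psi β β' σ j (kk y.1.1) y.1.2 (P (Sum.inl y.1.1)) (fun w => P (Sum.inr y.1) (σ w.1, w.2)) from
        funext fun z => eval_PhP kk P y.1 z]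
      exact sat_trace hσ him hβ (kk y.1.1) (hk _) _ φ (hUS _) hB y.1.2 _ _
        (Option.some_get y.2).symm
    rw [Submodule.finrank_eq_zero.1 hP1, Submodule.mem_bot] at h1
    intro a
    by_cases ha : a ∈ Ex β' D (range j)
    · exact congrFun h1 ⟨a, ha⟩
    · unfold trC
      rw [hφ0 _ fun h => ha ((mem_Ex_extend hσ him hβ a).1 h), Polynomial.coeff_zero]
  have hdvd : ∀ a : ν' → ℕ,
      Polynomial.X ^ (d + 1).factorial ∣ φ (Function.extend σ a 0) := by
    intro a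
    rw [Polynomial.X_pow_dvd_iff]
    exact fun B hB => htr B hB a
  have hoff : ∀ a, (∀ s, β s = j → a s = 0) → (φ a).eval 0 = 0 := by
    intro a ha
    obtain ⟨r, hr⟩ := hdvd fun x => a (σ x)
    rw [extend_comp hσ him ha] at hr
    rw [hr, Polynomial.eval_mul, Polynomial.eval_pow, Polynomial.eval_X,
      zero_pow (Nat.factorial_ne_zero _), zero_mul]
  have hz : ∀ a, a ∉ Ex β D (range (j + 1)) → (φ a).eval 0 = 0 := by
    intro a ha
    by_cases h1 : a ∈ Ex β D (range j)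
    · refine hoff a fun s hs => ?_
      by_contra h2
      exact ha (mem_Ex_succ.2 ⟨h1, s, hs, h2⟩)
    · rw [hφ0 a h1, Polynomial.eval_zero]
  refine ⟨fun e => (φ e.1).eval 0, ?_, ?_⟩
  · rw [SetLike.mem_coe, mem_LS hD]
    intro i
    have h2 : ext0 (Ex β D (range (j + 1)))
        (fun e : {a // a ∈ Ex β D (range (j + 1))} => (φ e.1).eval 0) =
        fun a => (φ a).eval 0 := by
      funext a
      by_cases ha : a ∈ Ex β D (range (j + 1))
      · exact ext0_mem _ ⟨a, ha⟩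
      · rw [ext0_not _ ha, hz a ha]
    rw [h2]
    exact sat_resid hσ him (kk i) (hk i) _ φ (hUS i) hdvd
  · funext e
    show ext0 (Ex β D (range (j + 1)))
      (fun e : {a // a ∈ Ex β D (range (j + 1))} => (φ e.1).eval 0) e.1 = (F e).eval 0
    have h3 : φ e.1 = F e := ext0_mem F e
    by_cases ha : e.1 ∈ Ex β D (range (j + 1))
    · rw [← h3]
      exact ext0_mem _ ⟨e.1, ha⟩
    · rw [ext0_not _ ha, ← h3, hz e.1 ha]

end

/-- **The step** (`D = d` is the main case). -/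
theorem step' {d D j n : ℕ} (hD : D ≤ d) {c : ℕ → ℕ} (hc : ∀ k ≤ j, 1 ≤ c k)
    (hn : ∑ k ∈ range (j + 1), c k ≤ n) (ms : Multiset Kd) (hk : ∀ k ∈ ms, k.Ok d (j + 1))
    (h0 : HL d D c (n - c j) j (ms.bind (tr j)) = 0) :
    HL d D c n j (ms.bind (un j)) ≤ HL d D c n (j + 1) ms := by
  classical
  obtain ⟨σ, hσ, him, hβ⟩ := sg_facts hc hn
  obtain ⟨m, hm, hm'⟩ := exists_conf (LS d D (blk c n) (range (j + 1))) ms
  have hkm : ∀ i, (m i).Ok d (j + 1) := by
    intro i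
    refine hk _ ?_
    rw [← hm]
    exact Multiset.mem_map_of_mem _ (mem_univ i)
  have h1 : (LS d D (blk c (n - c j)) (range j)).gd
      (Sm.k fun y : Fin ms.toList.length × Fin (d + 1) => trO j (m y.1) y.2.1) = 0 := by
    rw [gd_eq_gM, map_trO m hkm, hm]
    exact h0
  have h2 := step_gd hD hσ him hβ m hkm h1
  rw [gd_eq_gM, map_unO m hkm, hm, hm'] at h2
  exact h2

theorem step {d j n : ℕ} {c : ℕ → ℕ} (hc : ∀ k ≤ j, 1 ≤ c k)
    (hn : ∑ k ∈ range (j + 1), c k ≤ n) (ms : Multiset Kd) (hk : ∀ k ∈ ms, k.Ok d (j + 1))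
    (h0 : HL d d c (n - c j) j (ms.bind (tr j)) = 0) :
    HL d d c n j (ms.bind (un j)) ≤ HL d d c n (j + 1) ms :=
  step' le_rfl hc hn ms hk h0

end Pool.Agent.GD
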