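import Pool.Agent.GD.ST.Dh

/-!
# General d, step: one object

`Qn`: the positions (over `ℂ[t]`) of the objects of the level `j` which belong to an object `k` of the level
`j + 1` at the position `q`.  `sat_trace`: the coefficients of `t^B`, `B < (d + 1)!`, of a polynomial family
of solutions satisfy the conditions of the trace; `sat_resid`: the value at `t = 0` satisfies the conditions
of `k` if the trace is divisible by `t^((d + 1)!)`.
-/

set_option autoImplicit false
set_option linter.unusedSectionVars false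

namespace Pool.Agent.GD

open Finset Polynomial
open Pool.Agent.V7 (msk)

/-- The exponent of `t` of a cluster. -/
def ta (d dl : ℕ) : ℕ := (d + 1).factorial / (dl + 1)

theorem ta_mul {d dl : ℕ} (h : dl ≤ d) : ta d dl * (dl + 1) = (d + 1).factorial :=
  Nat.div_mul_cancel (Nat.dvd_factorial (by omega) (by omega))

theorem ta_pos {d dl : ℕ} (h : dl ≤ d) : 1 ≤ ta d dl := by
  rcases Nat.eq_zero_or_pos (ta d dl) with h1 | h1
  · have h2 := ta_mul h
    rw [h1, zero_mul] at h2
    exact absurd h2 (Nat.factorial_ne_zero _).symm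
  · exact h1

/-! ### Linear forms -/

section

variable {ν : Type} [Fintype ν] {R : Type} [CommRing R]

theorem lf_add (p p' : ν → R) : lf (fun s => p s + p' s) = lf p + lf p' := by
  unfold lf
  rw [← sum_add_distrib]
  refine sum_congr rfl fun s _ => ?_
  rw [map_add, add_mul]

theorem lf_smul (r : R) (p : ν → R) : lf (fun s => r * p s) = MvPolynomial.C r * lf p := by
  unfold lf
  rw [mul_sum]
  refine sum_congr rfl fun s _ => ?_
  rw [map_mul, mul_assoc]

theorem lf_sum {ι : Type} (t : Finset ι) (p : ι → ν → R) :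
    lf (fun s => ∑ x ∈ t, p x s) = ∑ x ∈ t, lf (p x) := by
  unfold lf
  rw [sum_comm]
  refine sum_congr rfl fun s _ => ?_
  rw [map_sum, sum_mul]

/-- The annihilator of a functional. -/
def Ann (Φ : MvPolynomial ν R →ₗ[R] R) : Ideal (MvPolynomial ν R) where
  carrier := {P | ∀ y, Φ (P * y) = 0}
  zero_mem' := fun y => by rw [zero_mul, map_zero]
  add_mem' := fun {a b} ha hb y => by rw [add_mul, map_add, ha y, hb y, add_zero]
  smul_mem' := fun c {a} ha y => by
    rw [smul_eq_mul, show c * a * y = a * (c * y) by ring]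
    exact ha _

theorem mem_Ann {Φ : MvPolynomial ν R →ₗ[R] R} {P : MvPolynomial ν R} :
    P ∈ Ann Φ ↔ ∀ y, Φ (P * y) = 0 := Iff.rfl

end

section

variable {ν : Type} [Fintype ν] [DecidableEq ν] {R : Type} [CommRing R]

theorem Fn_dvd_of (r : R) (φ : (ν → ℕ) → R) (h : ∀ a, r ∣ φ a) (P : MvPolynomial ν R) :
    r ∣ Fn φ P := by
  induction P using MvPolynomial.induction_on' with
  | monomial b a =>
    have h1 : MvPolynomial.monomial b a = MvPolynomial.C a * mon R (b : ν → ℕ) := by
      rw [mon_eq, Finsupp.equivFunOnFinite_symm_coe, MvPolynomial.C_mul_monomial, mul_one]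
    rw [h1, C_mul_eq_smul, (Fn φ).map_smul, Fn_mon, smul_eq_mul]
    exact Dvd.dvd.mul_left (Dvd.dvd.mul_left (h _) _) _
  | add p q hp hq =>
    rw [map_add]
    exact dvd_add hp hq

end

/-! ### The positions -/

section

variable {ν : Type} [Fintype ν] [DecidableEq ν] {d : ℕ}

/-- The positions of the objects of the level `j`. -/
noncomputable def Qn (β : ν → ℕ) (j : ℕ) (k : Kd) (x : Fin (d + 1)) (q : ν × Fin (d + 1) → ℂ)
    (z : ν × Fin (d + 1)) : ℂ[X] :=
  match k with
  | .ord e A => C (pt β (.ord e A) 0 q z.1)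
  | .cl e dl i As =>
      if i = j then C (pt β (.cl e dl i As) x q z.1) +
        (if x.1 = 0 then X ^ ta d dl * C (zz β j q z.1) else 0)
      else C (if β z.1 = j ∧ j ∈ As.getD z.2 ∅ then 0 else q z)

/-- The conditions of the objects of the level `j`. -/
def US (β : ν → ℕ) (j : ℕ) (k : Kd) (q : ν × Fin (d + 1) → ℂ)
    (Φ : MvPolynomial ν ℂ[X] →ₗ[ℂ[X]] ℂ[X]) : Prop :=
  ∀ x : Fin (d + 1), ∀ k', unO j k x.1 = some k' → Sat β (range j) k' (Qn β j k x q) Φ

theorem uu_cl {R : Type} [CommRing R] (β : ν → ℕ) (e dl i : ℕ) (As : List (Finset ℕ))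
    (q : ν × Fin (d + 1) → R) (s : ν) : uu β (.cl e dl i As) q s =
      ∑ x : Fin (d + 1), if x.1 < As.length then pt β (.cl e dl i As) x q s else 0 := rfl

theorem getD_erase (As : List (Finset ℕ)) (j x : ℕ) :
    (As.map fun A => A.erase j).getD x ∅ = (As.getD x ∅).erase j := by
  have h := List.getD_map (l := As) (d := (∅ : Finset ℕ)) (n := x) (fun A : Finset ℕ => A.erase j)
  simp only [erase_empty] at h
  exact h

theorem us_ord {β : ν → ℕ} {j e : ℕ} {A : Finset ℕ} {q : ν × Fin (d + 1) → ℂ}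
    {Φ : MvPolynomial ν ℂ[X] →ₗ[ℂ[X]] ℂ[X]} (h : US β j (.ord e A) q Φ) (x : Fin (d + 1))
    (y : MvPolynomial ν ℂ[X]) :
    Φ (lf (fun s => C (pt β (.ord e A) x q s)) ^ e * y) = 0 := by
  have h1 := (h 0 (.ord e (A.erase j)) (by simp [unO])).1 0 Nat.zero_lt_one y
  have h2 : pt β (.ord e (A.erase j)) 0 (Qn β j (.ord e A) 0 q) =
      fun s => C (pt β (.ord e A) x q s) := by
    funext s
    simp only [pt, msk, Qn]
    by_cases h3 : β s ∈ A
    · simp [h3]
    · have h4 : β s ∉ A.erase j := fun h => h3 (mem_of_mem_erase h)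
      simp [h3, h4]
  rw [h2] at h1
  exact h1

theorem pt_old {β : ν → ℕ} {j e dl i : ℕ} {As : List (Finset ℕ)} (hij : i ≠ j)
    (q : ν × Fin (d + 1) → ℂ) (x x₀ : Fin (d + 1)) (s : ν) :
    pt β (.cl e dl i (As.map fun A => A.erase j)) x (Qn β j (.cl e dl i As) x₀ q) s =
      C (pt β (.cl e dl i As) x q s) := by
  simp only [pt, msk, Qn, if_neg hij, List.length_map, getD_erase]
  by_cases h1 : β s ∈ As.getD x ∅
  · by_cases h2 : β s ∈ (As.getD x ∅).erase j
    · rw [if_pos h1, if_pos h2, map_zero]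
    · have h3 : β s = j := by
        by_contra h4
        exact h2 (mem_erase.2 ⟨h4, h1⟩)
      have h4 : ¬ β s = i := fun h => hij (h.symm.trans h3)
      have h5 : j ∈ As.getD x ∅ := h3 ▸ h1
      rw [if_pos h1, if_neg h2, if_neg fun h => h4 h.1, if_pos ⟨h3, h5⟩]
  · have h2 : β s ∉ (As.getD x ∅).erase j := fun h => h1 (mem_of_mem_erase h)
    have h3 : ¬ (β s = j ∧ j ∈ As.getD x ∅) := fun h => h1 (h.1 ▸ h.2)
    rw [if_neg h1, if_neg h2]
    by_cases h4 : β s = i ∧ x.1 + 1 = As.length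
    · rw [if_pos h4, if_pos h4, map_neg, map_sum]
      congr 1
      refine sum_congr rfl fun y _ => ?_
      have h5 : ¬ (β s = j ∧ j ∈ As.getD y ∅) := fun h => hij (h4.1.symm.trans h.1)
      rw [if_neg h5]
      split_ifs
      · rfl
      · rw [map_zero]
    · rw [if_neg h4, if_neg h4, if_neg h3]

theorem uu_old {β : ν → ℕ} {j e dl i : ℕ} {As : List (Finset ℕ)} (hij : i ≠ j)
    (q : ν × Fin (d + 1) → ℂ) (x₀ : Fin (d + 1)) (s : ν) :
    uu β (.cl e dl i (As.map fun A => A.erase j)) (Qn β j (.cl e dl i As) x₀ q) s =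
      C (uu β (.cl e dl i As) q s) := by
  rw [uu_cl, uu_cl, map_sum, List.length_map]
  refine sum_congr rfl fun x _ => ?_
  split_ifs
  · exact pt_old hij q x x₀ s
  · rw [map_zero]

theorem zz_old {β : ν → ℕ} {j e dl i : ℕ} {As : List (Finset ℕ)} (hij : i ≠ j)
    (q : ν × Fin (d + 1) → ℂ) (x₀ : Fin (d + 1)) (s : ν) :
    zz β i (Qn β j (.cl e dl i As) x₀ q) s = C (zz β i q s) := by
  simp only [zz, Qn, if_neg hij]
  by_cases h : β s = i
  · have h5 : ¬ (β s = j ∧ j ∈ As.getD (Fin.last d).1 ∅) := fun h' => hij (h.symm.trans h'.1)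
    rw [if_pos h, if_neg h5, if_pos h]
  · rw [if_neg h, if_neg h, map_zero]

theorem us_old {β : ν → ℕ} {j e dl i : ℕ} {As : List (Finset ℕ)} (hij : i ≠ j)
    {q : ν × Fin (d + 1) → ℂ} {Φ : MvPolynomial ν ℂ[X] →ₗ[ℂ[X]] ℂ[X]}
    (h : US β j (.cl e dl i As) q Φ) (x : Fin (d + 1)) (hx : x.1 < As.length)
    (y : MvPolynomial ν ℂ[X]) :
    Φ (lf (fun s => C (pt β (.cl e dl i As) x q s)) ^ e * y) = 0 := by
  have h1 := (h 0 (.cl e dl i (As.map fun A => A.erase j)) (by simp [unO, hij])).1 x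
    (by simpa [Kd.nm] using hx) y
  rw [show pt β (.cl e dl i (As.map fun A => A.erase j)) x (Qn β j (.cl e dl i As) 0 q) =
    fun s => C (pt β (.cl e dl i As) x q s) from funext fun s => pt_old hij q x 0 s] at h1
  exact h1

theorem us_old_b {β : ν → ℕ} {j e dl i : ℕ} {As : List (Finset ℕ)} (hij : i < j)
    {q : ν × Fin (d + 1) → ℂ} {Φ : MvPolynomial ν ℂ[X] →ₗ[ℂ[X]] ℂ[X]}
    (h : US β j (.cl e dl i As) q Φ) (κ : ℕ) (h1 : 1 ≤ κ) (h2 : κ ≤ dl) (b : ν → ℕ)
    (hb : ∀ s, β s = i → b s = 0) :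
    Φ (lf (fun s => C (uu β (.cl e dl i As) q s)) ^ (As.length * (e - 1)) *
      (lf (fun s => C (zz β i q s)) ^ κ * mon ℂ[X] b)) = 0 := by
  have h3 := (h 0 (.cl e dl i (As.map fun A => A.erase j)) (by simp [unO, hij.ne])).2
    (mem_range.2 hij) κ h1 h2 b hb
  rw [show uu β (.cl e dl i (As.map fun A => A.erase j)) (Qn β j (.cl e dl i As) 0 q) =
    fun s => C (uu β (.cl e dl i As) q s) from funext fun s => uu_old hij.ne q 0 s,
    show zz β i (Qn β j (.cl e dl i As) 0 q) = fun s => C (zz β i q s) from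
      funext fun s => zz_old hij.ne q 0 s, List.length_map] at h3
  exact h3

theorem us_new {β : ν → ℕ} {j e dl : ℕ} {As : List (Finset ℕ)}
    {q : ν × Fin (d + 1) → ℂ} {Φ : MvPolynomial ν ℂ[X] →ₗ[ℂ[X]] ℂ[X]}
    (h : US β j (.cl e dl j As) q Φ) (x : Fin (d + 1)) (hx : x.1 < As.length)
    (y : MvPolynomial ν ℂ[X]) :
    Φ (lf (fun s => C (pt β (.cl e dl j As) x q s) +
      (if x.1 = 0 then X ^ ta d dl * C (zz β j q s) else 0)) ^ e * y) = 0 := by
  have h1 := (h x (.ord e ((As.getD x ∅).erase j)) (by simp [unO, hx])).1 0 Nat.zero_lt_one y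
  have h2 : pt β (.ord e ((As.getD x ∅).erase j)) 0 (Qn β j (.cl e dl j As) x q) =
      fun s => C (pt β (.cl e dl j As) x q s) +
        (if x.1 = 0 then X ^ ta d dl * C (zz β j q s) else 0) := by
    funext s
    have h5 : Qn β j (.cl e dl j As) x q = fun z : ν × Fin (d + 1) =>
        C (pt β (.cl e dl j As) x q z.1) +
          (if x.1 = 0 then X ^ ta d dl * C (zz β j q z.1) else 0) := by
      funext z
      simp only [Qn, if_true]
    rw [h5]
    show (if β s ∈ (As.getD x ∅).erase j then (0 : ℂ[X]) else C (pt β (.cl e dl j As) x q s) +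
          (if x.1 = 0 then X ^ ta d dl * C (zz β j q s) else 0)) = _
    by_cases h3 : β s ∈ (As.getD x ∅).erase j
    · rw [if_pos h3]
      have h6 : β s ∈ As.getD x ∅ := mem_of_mem_erase h3
      have h7 : β s ≠ j := ne_of_mem_erase h3
      have h8 : pt β (.cl e dl j As) x q s = 0 := by
        simp only [pt, msk, if_pos h6]
      have h9 : zz β j q s = 0 := by
        simp only [zz, if_neg h7]
      rw [h8, h9, map_zero, mul_zero, ite_self, add_zero]
    · rw [if_neg h3]
  rw [h2] at h1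
  exact h1

/-- The sum of the members of a new cluster. -/
theorem us_new_sum {β : ν → ℕ} {j e dl : ℕ} {As : List (Finset ℕ)} (he : 1 ≤ e)
    (hl : 1 ≤ As.length) {q : ν × Fin (d + 1) → ℂ} {Φ : MvPolynomial ν ℂ[X] →ₗ[ℂ[X]] ℂ[X]}
    (h : US β j (.cl e dl j As) q Φ) (y : MvPolynomial ν ℂ[X]) :
    Φ ((lf (fun s => C (uu β (.cl e dl j As) q s)) +
      MvPolynomial.C (X ^ ta d dl) * lf fun s => C (zz β j q s)) ^ (As.length * (e - 1) + 1) * y) =
        0 := by
  classical
  set F : Finset (Fin (d + 1)) := univ.filter fun x => x.1 < As.length with hF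
  have hcard : F.card ≤ As.length := by
    have h1 : F.card ≤ (range As.length).card :=
      card_le_card_of_injOn (fun x => x.1) (fun x hx => by
        have h2 := (mem_filter.1 hx).2
        exact mem_coe.2 (mem_range.2 h2)) fun x _ x' _ hxx => Fin.ext hxx
    rwa [card_range] at h1
  have h1 := sum_pow_mem (Ann Φ) (fun x : Fin (d + 1) => lf (fun s => C (pt β (.cl e dl j As) x q s) +
      (if x.1 = 0 then X ^ ta d dl * C (zz β j q s) else 0))) F e he
      (fun x hx => fun y => us_new h x (mem_filter.1 hx).2 y)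
  have h2 : ∑ x ∈ F, lf (fun s => C (pt β (.cl e dl j As) x q s) +
      (if x.1 = 0 then X ^ ta d dl * C (zz β j q s) else 0)) =
      lf (fun s => C (uu β (.cl e dl j As) q s)) +
        MvPolynomial.C (X ^ ta d dl) * lf fun s => C (zz β j q s) := by
    rw [← lf_sum, ← lf_smul, ← lf_add]
    congr 1
    funext s
    rw [sum_add_distrib]
    congr 1
    · rw [uu_cl, map_sum, hF, sum_filter]
      refine sum_congr rfl fun x _ => ?_
      split_ifs
      · rfl
      · rw [map_zero]
    · rw [sum_eq_single (0 : Fin (d + 1))]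
      · exact if_pos rfl
      · intro x _ hx
        exact if_neg fun h => hx (Fin.ext h)
      · intro h3
        have h4 : (0 : Fin (d + 1)) ∈ F := mem_filter.2 ⟨mem_univ _, hl⟩
        exact absurd h4 h3
  rw [h2] at h1
  have h3 : As.length * (e - 1) + 1 = F.card * (e - 1) + 1 + (As.length - F.card) * (e - 1) := by
    have h4 : As.length * (e - 1) = F.card * (e - 1) + (As.length - F.card) * (e - 1) := by
      rw [← add_mul, Nat.add_sub_cancel' hcard]
    omega
  rw [h3, pow_add, mul_assoc]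
  exact h1 _

end

end Pool.Agent.GD
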