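import Pool.Agent.GD.ST.Lim

/-!
# General d, step: the algebra of the differential Horace lemma for clusters
-/

set_option autoImplicit false
set_option linter.unusedSectionVars false

namespace Pool.Agent.GD

open Finset

/-- The power of a sum. -/
theorem sum_pow_mem {S ι : Type} [CommRing S] [DecidableEq ι] (J : Ideal S) (w : ι → S) (s : Finset ι)
    (e : ℕ) (he : 1 ≤ e) (h : ∀ i ∈ s, w i ^ e ∈ J) :
    (∑ i ∈ s, w i) ^ (s.card * (e - 1) + 1) ∈ J := by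
  induction s using Finset.induction_on with
  | empty => simp
  | insert a s ha ih =>
    rw [sum_insert ha, card_insert_of_notMem ha]
    refine Ideal.add_pow_mem_of_pow_mem_of_le J (h a (mem_insert_self a s))
      (ih fun i hi => h i (mem_insert_of_mem hi)) ?_
    have h1 : (s.card + 1) * (e - 1) = s.card * (e - 1) + (e - 1) := by ring
    omega

theorem add_pow_split {S : Type} [CommRing S] (w a : S) (E κ : ℕ) :
    ∃ h g : S, (w + a) ^ (E + 1 + κ) =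
      a ^ (κ + 1) * (((E + 1 + κ).choose E : ℕ) * w ^ E + a * h) + w ^ (E + 1) * g := by
  refine ⟨∑ m ∈ range E, w ^ m * a ^ (E - 1 - m) * ((E + 1 + κ).choose m : ℕ),
    ∑ x ∈ range (κ + 1), w ^ x * a ^ (E + 1 + κ - (E + 1 + x)) *
      ((E + 1 + κ).choose (E + 1 + x) : ℕ), ?_⟩
  rw [add_pow, show E + 1 + κ + 1 = E + 1 + (κ + 1) by ring, sum_range_add, sum_range_succ]
  have h1 : ∑ m ∈ range E, w ^ m * a ^ (E + 1 + κ - m) * ((E + 1 + κ).choose m : ℕ) =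
      a ^ (κ + 1) * (a * ∑ m ∈ range E, w ^ m * a ^ (E - 1 - m) * ((E + 1 + κ).choose m : ℕ)) := by
    rw [mul_sum, mul_sum]
    refine sum_congr rfl fun m hm => ?_
    rw [mem_range] at hm
    rw [show E + 1 + κ - m = κ + 1 + (1 + (E - 1 - m)) by omega, pow_add, pow_add, pow_one]
    ring
  have h2 : ∑ x ∈ range (κ + 1), w ^ (E + 1 + x) * a ^ (E + 1 + κ - (E + 1 + x)) *
      ((E + 1 + κ).choose (E + 1 + x) : ℕ) =
      w ^ (E + 1) * ∑ x ∈ range (κ + 1), w ^ x * a ^ (E + 1 + κ - (E + 1 + x)) *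
        ((E + 1 + κ).choose (E + 1 + x) : ℕ) := by
    rw [mul_sum]
    refine sum_congr rfl fun x _ => ?_
    rw [pow_add w (E + 1) x]
    ring
  rw [h1, h2, show E + 1 + κ - E = κ + 1 by omega]
  ring

/-- `w = u + s z`: powers of `u` modulo `w^(E + 1)`. -/
theorem pow_split {S : Type} [CommRing S] (u z s : S) (E κ : ℕ) :
    ∃ h g : S, u ^ (E + 1 + κ) =
      s ^ (κ + 1) * ((-1) ^ (κ + 1) * ((E + 1 + κ).choose E : ℕ) * (u ^ E * z ^ (κ + 1)) + s * h) +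
        (u + s * z) ^ (E + 1) * g := by
  obtain ⟨h, g, hg⟩ := add_pow_split (u + s * z) (-(s * z)) E κ
  obtain ⟨h', hh'⟩ : ∃ h', (u + s * z) ^ E = u ^ E + s * h' := by
    obtain ⟨h', hh'⟩ := sub_dvd_pow_sub_pow (u + s * z) u E
    refine ⟨z * h', ?_⟩
    linear_combination hh'
  refine ⟨(-1) ^ (κ + 1) * z ^ (κ + 1) * (((E + 1 + κ).choose E : ℕ) * h' - z * h), g, ?_⟩
  have h1 : u + s * z + -(s * z) = u := by ring
  rw [h1] at hg
  have h2 : (-(s * z)) ^ (κ + 1) = (-1) ^ (κ + 1) * s ^ (κ + 1) * z ^ (κ + 1) := by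
    rw [neg_pow, mul_pow]
    ring
  rw [hg, h2, hh']
  ring

section

open MvPolynomial

variable {ν R : Type} [CommRing R]

/-- The functional on powers of `u`, if it kills `(u + r z)^(E + 1)`. -/
theorem Fn_split (Φ : MvPolynomial ν R →ₗ[R] R) (u z : MvPolynomial ν R) (r : R) (E κ : ℕ)
    (h : ∀ y, Φ ((u + C r * z) ^ (E + 1) * y) = 0) (y : MvPolynomial ν R) :
    ∃ G : R, Φ (u ^ (E + 1 + κ) * y) =
      r ^ (κ + 1) * ((-1) ^ (κ + 1) * ((E + 1 + κ).choose E : ℕ) * Φ (u ^ E * z ^ (κ + 1) * y) +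
        r * G) := by
  obtain ⟨h', g, hg⟩ := pow_split u z (C r) E κ
  refine ⟨Φ (h' * y), ?_⟩
  have hC : ∀ (c : R) P, Φ (C c * P) = c * Φ P := by
    intro c P
    rw [← smul_eq_C_mul, map_smul, smul_eq_mul]
  have e1 : u ^ (E + 1 + κ) * y =
      C (r ^ (κ + 1) * ((-1) ^ (κ + 1) * ((E + 1 + κ).choose E : ℕ))) *
        (u ^ E * z ^ (κ + 1) * y) + C (r ^ (κ + 1) * r) * (h' * y) +
        (u + C r * z) ^ (E + 1) * (g * y) := by
    rw [hg]
    simp only [map_mul, map_pow, map_neg, map_one, map_natCast]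
    ring
  rw [e1, map_add, map_add, h, hC, hC]
  ring

end

section

open Polynomial

variable {ν : Type}

/-- The condition of the trace. -/
theorem Fn_dvd (Φ : MvPolynomial ν ℂ[X] →ₗ[ℂ[X]] ℂ[X]) (u z : MvPolynomial ν ℂ[X]) (a E κ : ℕ)
    (h : ∀ y, Φ ((u + MvPolynomial.C (X ^ a) * z) ^ (E + 1) * y) = 0) (y : MvPolynomial ν ℂ[X]) :
    X ^ (a * (κ + 1)) ∣ Φ (u ^ (E + 1 + κ) * y) := by
  obtain ⟨G, hG⟩ := Fn_split Φ u z (X ^ a) E κ h y
  rw [hG, pow_mul]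
  exact dvd_mul_right _ _

theorem cancel_eval (a κ dl : ℕ) (ha : 1 ≤ a) (hκ : κ + 1 ≤ dl) (c : ℂ) (hc : c ≠ 0) (P G q : ℂ[X])
    (h : (X ^ a) ^ (κ + 1) * (C c * P + X ^ a * G) = X ^ (a * (dl + 1)) * q) : P.eval 0 = 0 := by
  have e1 : (X : ℂ[X]) ^ (a * (dl + 1)) = (X ^ a) ^ (κ + 1) * (X ^ a) ^ (dl - κ) := by
    rw [pow_mul, ← pow_add]
    congr 1
    omega
  rw [e1, mul_assoc] at h
  have h1 : ((X ^ a : ℂ[X]) ^ (κ + 1)) ≠ 0 := pow_ne_zero _ (pow_ne_zero _ X_ne_zero)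
  have h3 := congrArg (Polynomial.eval 0) (mul_left_cancel₀ h1 h)
  have h4 : (0 : ℂ) ^ a = 0 := zero_pow (by omega)
  have h5 : (0 : ℂ) ^ (dl - κ) = 0 := zero_pow (by omega)
  rw [eval_add, eval_mul, eval_C, eval_mul, eval_pow, eval_X, h4, zero_mul, add_zero, eval_mul,
    eval_pow, eval_pow, eval_X, h4, h5, zero_mul] at h3
  exact (mul_eq_zero.1 h3).resolve_left hc

/-- The additional conditions of the residual. -/
theorem Fn_resid (Φ : MvPolynomial ν ℂ[X] →ₗ[ℂ[X]] ℂ[X]) (u z : MvPolynomial ν ℂ[X]) (a E κ dl : ℕ)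
    (ha : 1 ≤ a) (hκ : κ + 1 ≤ dl)
    (h : ∀ y, Φ ((u + MvPolynomial.C (X ^ a) * z) ^ (E + 1) * y) = 0) (y : MvPolynomial ν ℂ[X])
    (hd : X ^ (a * (dl + 1)) ∣ Φ (u ^ (E + 1 + κ) * y)) :
    (Φ (u ^ E * z ^ (κ + 1) * y)).eval 0 = 0 := by
  obtain ⟨G, hG⟩ := Fn_split Φ u z (X ^ a) E κ h y
  obtain ⟨q, hq⟩ := hd
  have hc : ((-1 : ℂ) ^ (κ + 1) * ((E + 1 + κ).choose E : ℕ)) ≠ 0 :=
    mul_ne_zero (pow_ne_zero _ (neg_ne_zero.2 one_ne_zero))
      (Nat.cast_ne_zero.2 (Nat.choose_pos (by omega)).ne')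
  refine cancel_eval a κ dl ha hκ _ hc _ G q ?_
  rw [← hq, hG]
  congr 2
  congr 1
  rw [C_mul, C_pow, C_neg, C_1, C_eq_natCast]

end

end Pool.Agent.GD
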