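import Pool.Agent.GD.ST.Psi
import Pool.Agent.H54.V7.Lim

/-!
# General d, step: limits of one parameter families of positions; naturality of the functionals
-/

set_option autoImplicit false
set_option linter.unusedSectionVars false

namespace Pool.Agent.GD

open Finset Pool.Agent.H51.TB Pool.Agent.H54.V7
open Pool.Agent.H21.NX (Sx mem_Sx)

/-- If the values at `t = 0` of all polynomial solutions at the position `Q (t)` lie in `U`, the
general dimension is at most the dimension of `U`. -/
theorem gd_lim {E ν T κ : Type} [Fintype E] [Fintype κ] (S : Sys E ν T) (m : κ → T)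
    (Q : κ → ν → Polynomial ℂ) (U : Submodule ℂ (E → ℂ))
    (h : ∀ F : E → Polynomial ℂ,
      (∀ i (r : S.R (m i)), ∑ e, F e * MvPolynomial.aeval (Q i) (S.co (m i) r e) = 0) →
        (fun e => (F e).eval 0) ∈ U) : S.gd m ≤ Module.finrank ℂ U := by
  classical
  have hfin : ∀ i, Finite (S.R (m i)) := fun i => S.fin (m i)
  have : Finite (Σ i, S.R (m i)) := inferInstance
  let _ : Fintype (Σ i, S.R (m i)) := Fintype.ofFinite _
  obtain ⟨t, ht⟩ := poly_limit (fun (x : Σ i, S.R (m i)) e =>
    MvPolynomial.aeval (Q x.1) (S.co (m x.1) x.2 e)) U fun F hF => h F fun i r => hF ⟨i, r⟩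
  refine (gd_le S m fun i s => (Q i s).eval t).trans (le_trans ?_ ht)
  refine Submodule.finrank_mono fun f hf => ?_
  rw [Sys.mem_V] at hf
  rw [mem_solAt]
  intro x
  refine Eq.trans ?_ (hf x.1 x.2)
  refine sum_congr rfl fun e _ => ?_
  rw [mul_comm]
  congr 1
  have h1 : ((Polynomial.aeval t : Polynomial ℂ →ₐ[ℂ] ℂ).comp
      (MvPolynomial.aeval (Q x.1))) (S.co (m x.1) x.2 e) =
      MvPolynomial.aeval (fun s => (Q x.1 s).eval t) (S.co (m x.1) x.2 e) := by
    rw [MvPolynomial.comp_aeval]
    rfl
  rw [MvPolynomial.aeval_eq_eval] at h1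
  exact h1

section

variable {ν : Type} [Fintype ν] [DecidableEq ν] {R S : Type} [CommRing R] [CommRing S]

theorem mon_map (g : R →+* S) (b : ν → ℕ) : MvPolynomial.map g (mon R b) = mon S b := by
  unfold mon
  rw [map_prod]
  refine prod_congr rfl fun s _ => ?_
  rw [map_pow, MvPolynomial.map_X]

theorem lf_map (g : R →+* S) (p : ν → R) : MvPolynomial.map g (lf p) = lf fun s => g (p s) := by
  unfold lf
  rw [map_sum]
  refine sum_congr rfl fun s _ => ?_
  rw [map_mul, MvPolynomial.map_C, MvPolynomial.map_X]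

/-- Induction on monomials for additive maps. -/
theorem add_ext {M : Type} [AddCommMonoid M] (L L' : MvPolynomial ν R →+ M)
    (h : ∀ (a : R) b, L (MvPolynomial.C a * mon R b) = L' (MvPolynomial.C a * mon R b)) : L = L' := by
  refine AddMonoidHom.ext fun P => ?_
  induction P using MvPolynomial.induction_on' with
  | monomial b a =>
    have h1 := h a (b : ν → ℕ)
    rw [mon_eq, Finsupp.equivFunOnFinite_symm_coe, MvPolynomial.C_mul_monomial, mul_one] at h1
    exact h1
  | add p q hp hq => rw [map_add, map_add, hp, hq]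

/-- Change of the ring. -/
theorem Fn_map (g : R →+* S) (φ : (ν → ℕ) → R) (P : MvPolynomial ν R) :
    g (Fn φ P) = Fn (fun a => g (φ a)) (MvPolynomial.map g P) := by
  have h : (g : R →+ S).comp (Fn φ).toAddMonoidHom =
      (Fn fun a => g (φ a)).toAddMonoidHom.comp (MvPolynomial.map g).toAddMonoidHom := by
    refine add_ext _ _ fun a b => ?_
    show g (Fn φ (MvPolynomial.C a * mon R b)) =
      Fn (fun a => g (φ a)) (MvPolynomial.map g (MvPolynomial.C a * mon R b))
    rw [map_mul (MvPolynomial.map g), mon_map, MvPolynomial.map_C, C_mul_eq_smul, C_mul_eq_smul,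
      (Fn φ).map_smul, (Fn fun a => g (φ a)).map_smul, Fn_mon, Fn_mon, smul_eq_mul, smul_eq_mul,
      map_mul, map_mul, map_natCast]
  exact DFunLike.congr_fun h P

/-- The coefficients of a polynomial family of functionals. -/
theorem Fn_coeff (B : ℕ) (φ : (ν → ℕ) → Polynomial R) (P : MvPolynomial ν R) :
    (Fn φ (MvPolynomial.map Polynomial.C P)).coeff B = Fn (fun a => (φ a).coeff B) P := by
  have h : (Polynomial.lcoeff R B).toAddMonoidHom.comp ((Fn φ).toAddMonoidHom.comp
      (MvPolynomial.map (Polynomial.C : R →+* Polynomial R)).toAddMonoidHom) =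
      (Fn fun a => (φ a).coeff B).toAddMonoidHom := by
    refine add_ext _ _ fun a b => ?_
    show (Fn φ (MvPolynomial.map Polynomial.C (MvPolynomial.C a * mon R b))).coeff B =
      Fn (fun a => (φ a).coeff B) (MvPolynomial.C a * mon R b)
    rw [map_mul, mon_map, MvPolynomial.map_C, C_mul_eq_smul, C_mul_eq_smul, (Fn φ).map_smul,
      (Fn fun a => (φ a).coeff B).map_smul, Fn_mon, Fn_mon, smul_eq_mul, smul_eq_mul,
      Polynomial.coeff_C_mul, ← Polynomial.C_eq_natCast, Polynomial.coeff_C_mul]
  exact DFunLike.congr_fun h P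

end

section

variable {ν ν' : Type} [Fintype ν] [DecidableEq ν] [Fintype ν'] [DecidableEq ν'] {R : Type}
  [CommRing R] {σ : ν' → ν}

theorem rename_mon (hσ : Function.Injective σ) (b : ν' → ℕ) :
    MvPolynomial.rename σ (mon R b) = mon R (Function.extend σ b 0) := by
  unfold mon
  rw [map_prod]
  refine Eq.trans ?_ (Fintype.prod_of_injective σ hσ (fun x => MvPolynomial.X (σ x) ^ b x) _ ?_ ?_)
  · refine prod_congr rfl fun s _ => ?_
    rw [map_pow, MvPolynomial.rename_X]
  · intro s hs
    rw [Function.extend_apply' _ _ _ fun h => hs h]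
    exact pow_zero _
  · intro x
    rw [hσ.extend_apply]

theorem rename_lf (hσ : Function.Injective σ) (p : ν' → R) :
    MvPolynomial.rename σ (lf p) = lf (Function.extend σ p 0) := by
  unfold lf
  rw [map_sum]
  refine Eq.trans ?_ (Fintype.sum_of_injective σ hσ
    (fun x => MvPolynomial.C (p x) * MvPolynomial.X (σ x)) _ ?_ ?_)
  · refine sum_congr rfl fun s _ => ?_
    rw [map_mul, MvPolynomial.rename_C, MvPolynomial.rename_X]
  · intro s hs
    rw [Function.extend_apply' _ _ _ fun h => hs h]
    simp
  · intro x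
    rw [hσ.extend_apply]

/-- The linear form of a vector which vanishes off the image of `σ`. -/
theorem rename_lf' (hσ : Function.Injective σ) (p : ν → R) (hp : ∀ s, (¬ ∃ x, σ x = s) → p s = 0) :
    MvPolynomial.rename σ (lf fun x => p (σ x)) = lf p := by
  rw [rename_lf hσ]
  congr 1
  funext s
  by_cases hs : ∃ x, σ x = s
  · obtain ⟨x, rfl⟩ := hs
    exact hσ.extend_apply _ _ x
  · rw [Function.extend_apply' _ _ _ hs, hp s hs]
    rfl

theorem fac_extend (hσ : Function.Injective σ) (b : ν' → ℕ) :
    fac (Function.extend σ b 0) = fac b := by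
  unfold fac
  refine (Fintype.prod_of_injective σ hσ (fun x => (b x).factorial) _ ?_ ?_).symm
  · intro s hs
    rw [Function.extend_apply' _ _ _ fun h => hs h]
    exact Nat.factorial_zero
  · intro x
    rw [hσ.extend_apply]

/-- Restriction to the subspace. -/
theorem Fn_rename (hσ : Function.Injective σ) (φ : (ν → ℕ) → R) (P : MvPolynomial ν' R) :
    Fn φ (MvPolynomial.rename σ P) = Fn (fun a => φ (Function.extend σ a 0)) P := by
  have h : (Fn φ).comp (MvPolynomial.rename σ : MvPolynomial ν' R →ₐ[R] MvPolynomial ν R).toLinearMap =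
      Fn fun a => φ (Function.extend σ a 0) := by
    refine mon_ext fun b => ?_
    show Fn φ (MvPolynomial.rename σ (mon R b)) = _
    rw [rename_mon hσ, Fn_mon, Fn_mon, fac_extend hσ]
  exact LinearMap.congr_fun h P

end

end Pool.Agent.GD
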