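import Pool.Agent.GD.ST.Sat

/-!
# General d, step: the objects of the level `j` and of the trace which belong to an object of the level
`j + 1`, and their positions

`unO j k x`, `trO j k x`: the `x`-th object (`none` = there is no such object).
`Psi`: the position of the `x`-th object of the trace (in the variables `ν'`, `σ : ν' → ν` the inclusion
of the variables off the block `j`); the coordinates which are not used are taken from `δ`.
-/

set_option autoImplicit false
set_option linter.unusedSectionVars false

namespace Pool.Agent.GD

open Finset MvPolynomial Pool.Agent.H51.TB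
open Pool.Agent.V7 (msk)

/-- The objects of the level `j`. -/
def unO (j : ℕ) (k : Kd) (x : ℕ) : Option Kd :=
  match k with
  | .ord e A => if x = 0 then some (.ord e (A.erase j)) else none
  | .cl e dl i As =>
      if i = j then (if x < As.length then some (.ord e ((As.getD x ∅).erase j)) else none)
      else if x = 0 then some (.cl e dl i (As.map fun A => A.erase j)) else none

/-- The objects of the trace. -/
def trO (j : ℕ) (k : Kd) (x : ℕ) : Option Kd :=
  match k with
  | .ord e A => if x = 0 ∧ j ∈ A then some (.ord e (A.erase j)) else none
  | .cl e dl i As =>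
      if i = j then (if x = 0 then some (.ord (trx e dl As.length) (inter As)) else none)
      else if ∀ A ∈ As, j ∈ A then
        (if x = 0 then some (.cl e dl i (As.map fun A => A.erase j)) else none)
      else if x < As.length ∧ j ∈ As.getD x ∅ then some (.ord e ((As.getD x ∅).erase j)) else none

/-- The indices of a family with gaps. -/
abbrev Sm {κ : Type} (o : κ → Option Kd) : Type := {i : κ // (o i).isSome}

/-- The kinds of a family with gaps. -/
def Sm.k {κ : Type} (o : κ → Option Kd) (i : Sm o) : Kd := (o i.1).get i.2

/-- The position of the `x`-th object of the trace. -/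
def Psi {ν ν' : Type} [Fintype ν] [DecidableEq ν] {R : Type} [CommRing R] {d : ℕ} (β : ν → ℕ)
    (β' : ν' → ℕ) (σ : ν' → ν) (j : ℕ) (k : Kd) (x : Fin (d + 1)) (q : ν × Fin (d + 1) → R)
    (δ : ν' × Fin (d + 1) → R) (z : ν' × Fin (d + 1)) : R :=
  match k with
  | .ord _ _ => if z.2 = 0 then q (σ z.1, 0) else δ z
  | .cl e dl i As =>
      if i = j then (if z.2 = 0 ∧ β' z.1 ∉ inter As then uu β (.cl e dl i As) q (σ z.1) else δ z)
      else if ∀ A ∈ As, j ∈ A then q (σ z.1, z.2)
      else if z.2 = 0 ∧ β' z.1 ∉ (As.getD x ∅).erase j then pt β (.cl e dl i As) x q (σ z.1)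
      else δ z

end Pool.Agent.GD
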