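import Pool.Agent.GD.ST.Fn

/-!
# General d: the conditions of the objects for functionals

`Sat d β I k q Φ`: the functional `Φ` on the polynomial ring satisfies the conditions of the object `k` at
the position `q`.  `mem_LSA`: the solution space of a configuration.  Everything over any domain `R`
over `ℂ` (for `ℂ` and `ℂ[t]`).
-/

set_option autoImplicit false
set_option linter.unusedSectionVars false

namespace Pool.Agent.GD

open Finset MvPolynomial Pool.Agent.H51.TB Pool.Agent.H54.V7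
open Pool.Agent.H18.Ex (tcr tcr_map)
open Pool.Agent.H21.NX (Sx mem_Sx)
open Pool.Agent.V7 (msk)

section

variable {ν : Type} [Fintype ν] [DecidableEq ν] {R : Type} [CommRing R] {d : ℕ}

/-- The additional conditions of a cluster. -/
def Sb (β : ν → ℕ) (I : Finset ℕ) : Kd → (ν × Fin (d + 1) → R) → (MvPolynomial ν R →ₗ[R] R) → Prop
  | .ord _ _, _, _ => True
  | .cl e dl i As, q, Φ => i ∈ I → ∀ κ : ℕ, 1 ≤ κ → κ ≤ dl → ∀ b : ν → ℕ, (∀ s, β s = i → b s = 0) →
      Φ (lf (uu β (.cl e dl i As) q) ^ (As.length * (e - 1)) * (lf (zz β i q) ^ κ * mon R b)) = 0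

/-- The conditions of an object. -/
def Sat (β : ν → ℕ) (I : Finset ℕ) (k : Kd) (q : ν × Fin (d + 1) → R)
    (Φ : MvPolynomial ν R →ₗ[R] R) : Prop :=
  (∀ x : Fin (d + 1), x.1 < k.nm → ∀ y, Φ (lf (pt β k x q) ^ k.ex * y) = 0) ∧ Sb β I k q Φ

/-- Extension of the coefficients by `0`. -/
def ext0 (A : Finset (ν → ℕ)) (f : {a // a ∈ A} → R) (a : ν → ℕ) : R :=
  if h : a ∈ A then f ⟨a, h⟩ else 0

theorem ext0_mem {A : Finset (ν → ℕ)} (f : {a // a ∈ A} → R) (a : {a // a ∈ A}) :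
    ext0 A f a.1 = f a := by
  unfold ext0
  rw [dif_pos a.2]

theorem ext0_not {A : Finset (ν → ℕ)} (f : {a // a ∈ A} → R) {a : ν → ℕ} (h : a ∉ A) :
    ext0 A f a = 0 := by
  unfold ext0
  rw [dif_neg h]

/-! ### Naturality -/

section nat

variable {S : Type} [CommRing S]

theorem pt_map (g : R →+* S) (β : ν → ℕ) (k : Kd) (x : Fin (d + 1)) (q : ν × Fin (d + 1) → R)
    (s : ν) : g (pt β k x q s) = pt β k x (fun z => g (q z)) s := by
  rcases k with ⟨e, A⟩ | ⟨e, dl, i, As⟩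
  · simp only [pt, msk]
    split_ifs
    · exact map_zero g
    · rfl
  · simp only [pt, msk]
    split_ifs
    · exact map_zero g
    · rw [map_neg, map_sum]
      congr 1
      refine sum_congr rfl fun y _ => ?_
      split_ifs
      · rfl
      · exact map_zero g
    · rfl

theorem uu_map (g : R →+* S) (β : ν → ℕ) (k : Kd) (q : ν × Fin (d + 1) → R)
    (s : ν) : g (uu β k q s) = uu β k (fun z => g (q z)) s := by
  unfold uu
  rw [map_sum]
  refine sum_congr rfl fun y _ => ?_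
  split_ifs
  · exact pt_map g β k y q s
  · exact map_zero g

theorem zz_map (g : R →+* S) (β : ν → ℕ) (i : ℕ) (q : ν × Fin (d + 1) → R)
    (s : ν) : g (zz β i q s) = zz β i (fun z => g (q z)) s := by
  unfold zz
  split_ifs
  · rfl
  · exact map_zero g

end nat

/-! ### Sums over the exponents -/

theorem sum_ext0 {D : ℕ} {A : Finset (ν → ℕ)} (hA : ∀ a ∈ A, ∑ s, a s = D)
    (f : {a // a ∈ A} → R) (w : (ν → ℕ) → R) :
    ∑ g ∈ Sx ν D, ext0 A f g * w g = ∑ e : {a // a ∈ A}, f e * w e.1 := by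
  have h1 : ∑ e : {a // a ∈ A}, f e * w e.1 = ∑ a ∈ A, ext0 A f a * w a := by
    rw [← sum_coe_sort A fun a => ext0 A f a * w a]
    exact sum_congr rfl fun e _ => by rw [ext0_mem]
  rw [h1]
  symm
  refine sum_subset (fun a ha => mem_Sx.2 (hA a ha)) fun a _ ha => ?_
  rw [ext0_not f ha, zero_mul]

theorem sum_ext0_ne {D m : ℕ} {A : Finset (ν → ℕ)} (hA : ∀ a ∈ A, ∑ s, a s = D) (hm : m ≠ D)
    (f : {a // a ∈ A} → R) (w : (ν → ℕ) → R) :
    ∑ g ∈ Sx ν m, ext0 A f g * w g = 0 := by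
  refine sum_eq_zero fun a ha => ?_
  rw [ext0_not f, zero_mul]
  intro h
  rw [mem_Sx] at ha
  exact hm (ha.symm.trans (hA a h))

variable [IsDomain R] [CharZero R]

theorem cast_fac_ne (m : ℕ) (b : ν → ℕ) : ((m.factorial * fac b : ℕ) : R) ≠ 0 :=
  Nat.cast_ne_zero.2 (Nat.mul_ne_zero (Nat.factorial_ne_zero m) (fac_pos b).ne')

theorem sata_iff {D : ℕ} {A : Finset (ν → ℕ)} (hA : ∀ a ∈ A, ∑ s, a s = D) (p : ν → R)
    (F : {a // a ∈ A} → R) (e : ℕ) :
    (∀ b : ν → ℕ, ∑ s, b s + e ≤ D → ∑ a, F a * tcr p a.1 b = 0) ↔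
      ∀ y, Fn (ext0 A F) (lf p ^ e * y) = 0 := by
  constructor
  · intro h
    have h1 : (Fn (ext0 A F)).comp (LinearMap.mulLeft R (lf p ^ e)) = 0 := by
      refine mon_span _ fun b => ?_
      rw [LinearMap.comp_apply, LinearMap.mulLeft_apply, Fn_lf]
      by_cases hb : e + ∑ s, b s = D
      · rw [hb, sum_ext0 hA F fun g => tcr p g b, h b (by omega), mul_zero]
      · rw [sum_ext0_ne hA hb F fun g => tcr p g b, mul_zero]
    intro y
    exact LinearMap.congr_fun h1 y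
  · intro h b hb
    have h1 := h (lf p ^ (D - ∑ s, b s - e) * mon R b)
    rw [← mul_assoc, ← pow_add] at h1
    have h2 : e + (D - ∑ s, b s - e) = D - ∑ s, b s := by omega
    have h3 : D - ∑ s, b s + ∑ s, b s = D := by omega
    rw [h2, Fn_lf, h3, sum_ext0 hA F fun g => tcr p g b] at h1
    exact (mul_eq_zero.1 h1).resolve_left (cast_fac_ne _ b)

variable [Algebra ℂ R]

theorem aeval_tcr {σ : Type} (q : σ → R) (p : ν → MvPolynomial σ ℂ) (e b : ν → ℕ) :
    aeval q (tcr p e b) = tcr (fun s => aeval q (p s)) e b :=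
  tcr_map (aeval q : MvPolynomial σ ℂ →ₐ[ℂ] R).toRingHom p e b

theorem aeval_pt (β : ν → ℕ) (k : Kd) (x : Fin (d + 1)) (q : ν × Fin (d + 1) → R) (s : ν) :
    aeval q (pt β k x (fun s => (X s : MvPolynomial (ν × Fin (d + 1)) ℂ)) s) = pt β k x q s := by
  refine (pt_map (aeval q : MvPolynomial (ν × Fin (d + 1)) ℂ →ₐ[ℂ] R).toRingHom β k x _ s).trans ?_
  congr 1
  funext z
  exact aeval_X q z

theorem aeval_uu (β : ν → ℕ) (k : Kd) (q : ν × Fin (d + 1) → R) (s : ν) :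
    aeval q (uu β k (fun s => (X s : MvPolynomial (ν × Fin (d + 1)) ℂ)) s) = uu β k q s := by
  refine (uu_map (aeval q : MvPolynomial (ν × Fin (d + 1)) ℂ →ₐ[ℂ] R).toRingHom β k _ s).trans ?_
  congr 1
  funext z
  exact aeval_X q z

theorem aeval_zz (β : ν → ℕ) (i : ℕ) (q : ν × Fin (d + 1) → R) (s : ν) :
    aeval q (zz β i (fun s => (X s : MvPolynomial (ν × Fin (d + 1)) ℂ)) s) = zz β i q s := by
  refine (zz_map (aeval q : MvPolynomial (ν × Fin (d + 1)) ℂ →ₐ[ℂ] R).toRingHom β i _ s).trans ?_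
  congr 1
  funext z
  exact aeval_X q z

theorem satb_iff {D : ℕ} (hD : D ≤ d) (β : ν → ℕ) (I : Finset ℕ) {A : Finset (ν → ℕ)}
    (hA : ∀ a ∈ A, ∑ s, a s = D) (k : Kd) (q : ν × Fin (d + 1) → R) (F : {a // a ∈ A} → R) :
    (∀ r : Rb d D β I k, ∑ a, F a * aeval q (cob d D β I k r a.1) = 0) ↔
      Sb β I k q (Fn (ext0 A F)) := by
  rcases k with ⟨e, A'⟩ | ⟨e, dl, i, As⟩
  · exact ⟨fun _ => trivial, fun _ r => r.elim⟩
  set u : ν → R := uu β (.cl e dl i As) q with hu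
  set z : ν → R := zz β i q with hz
  have key : ∀ (κ : ℕ) (b : ν → ℕ), As.length * (e - 1) + κ + ∑ s, b s = D →
      Fn (ext0 A F) (lf u ^ (As.length * (e - 1)) * (lf z ^ κ * mon R b)) =
        (((As.length * (e - 1)).factorial * (κ.factorial * fac b) : ℕ) : R) *
          ∑ a, F a * ∑ g ∈ Sx ν (κ + ∑ s, b s), tcr z g b * tcr u a.1 g := by
    intro κ b h
    rw [Fn_lf2]
    congr 1
    have h1 : ∀ g ∈ Sx ν (κ + ∑ s, b s),
        (∑ a ∈ Sx ν (As.length * (e - 1) + ∑ s, g s), ext0 A F a * tcr u a g) * tcr z g b =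
          ∑ a : {a // a ∈ A}, F a * (tcr z g b * tcr u a.1 g) := by
      intro g hg
      rw [mem_Sx] at hg
      have h2 : As.length * (e - 1) + ∑ s, g s = D := by omega
      rw [h2, sum_ext0 hA F fun a => tcr u a g, sum_mul]
      refine sum_congr rfl fun a _ => ?_
      ring
    rw [sum_congr rfl h1, sum_comm]
    exact sum_congr rfl fun a _ => (mul_sum _ _ _).symm
  have ne0 : ∀ (κ : ℕ) (b : ν → ℕ), As.length * (e - 1) + κ + ∑ s, b s ≠ D →
      Fn (ext0 A F) (lf u ^ (As.length * (e - 1)) * (lf z ^ κ * mon R b)) = 0 := by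
    intro κ b h
    rw [Fn_lf2]
    have h1 : ∀ g ∈ Sx ν (κ + ∑ s, b s),
        (∑ a ∈ Sx ν (As.length * (e - 1) + ∑ s, g s), ext0 A F a * tcr u a g) * tcr z g b = 0 := by
      intro g hg
      rw [mem_Sx] at hg
      rw [sum_ext0_ne hA (by omega) F fun a => tcr u a g, zero_mul]
    rw [sum_congr rfl h1, sum_const_zero, mul_zero]
  have hev : ∀ (r : Rb d D β I (.cl e dl i As)) (a : ν → ℕ), aeval q (cob d D β I (.cl e dl i As) r a) =
      ∑ g ∈ Sx ν (r.1.1.1 + ∑ s, r.1.2 s), tcr z g r.1.2 * tcr u a g := by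
    intro r a
    show aeval q (∑ g ∈ Sx ν (r.1.1.1 + ∑ s, r.1.2 s),
      tcr (zz β i fun s => (X s : MvPolynomial (ν × Fin (d + 1)) ℂ)) g r.1.2 *
        tcr (uu β (.cl e dl i As) fun s => (X s : MvPolynomial (ν × Fin (d + 1)) ℂ)) a g) = _
    rw [map_sum]
    refine sum_congr rfl fun g _ => ?_
    rw [map_mul, aeval_tcr, aeval_tcr]
    congr 2
    · funext s
      exact aeval_zz β i q s
    · funext s
      exact aeval_uu β _ q s
  constructor
  · intro h hi κ h1 h2 b hb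
    by_cases h3 : As.length * (e - 1) + κ + ∑ s, b s = D
    · let r : Rb d D β I (.cl e dl i As) := ⟨(⟨κ, by omega⟩, b), ⟨hi, h1, h2⟩, hb, h3⟩
      have h4 : ∑ a, F a * aeval q (cob d D β I (.cl e dl i As) r a.1) = 0 := h r
      rw [sum_congr rfl fun a _ => by rw [hev r a.1]] at h4
      rw [key κ b h3]
      exact mul_eq_zero_of_right _ h4
    · exact ne0 κ b h3
  · intro h r
    obtain ⟨⟨hi, h1, h2⟩, hb, h3⟩ := r.2
    have h4 := h hi r.1.1.1 h1 h2 r.1.2 hb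
    rw [key _ _ h3] at h4
    show ∑ a, F a * aeval q (cob d D β I (.cl e dl i As) r a.1) = 0
    rw [sum_congr rfl fun a _ => by rw [hev r a.1]]
    refine (mul_eq_zero.1 h4).resolve_left (Nat.cast_ne_zero.2 ?_)
    exact Nat.mul_ne_zero (Nat.factorial_ne_zero _)
      (Nat.mul_ne_zero (Nat.factorial_ne_zero _) (fac_pos _).ne')

/-- The conditions of an object over any domain. -/
theorem sat_iff {D : ℕ} (hD : D ≤ d) (β : ν → ℕ) (I : Finset ℕ) {A : Finset (ν → ℕ)}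
    (hA : ∀ a ∈ A, ∑ s, a s = D) (k : Kd) (q : ν × Fin (d + 1) → R) (F : {a // a ∈ A} → R) :
    (∀ r : (LSA d D β I A).R k, ∑ a, F a * aeval q ((LSA d D β I A).co k r a) = 0) ↔
      Sat β I k q (Fn (ext0 A F)) := by
  have hev : ∀ (r : Ra d D ν k) (a : ν → ℕ), aeval q (coa d D β k r a) =
      tcr (pt β k r.1.1 q) a r.1.2 := by
    intro r a
    unfold coa
    rw [aeval_tcr]
    congr 1
    funext s
    exact aeval_pt β k _ q s
  constructor
  · intro h
    refine ⟨fun x hx => ?_, (satb_iff hD β I hA k q F).1 fun r => h (Sum.inr r)⟩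
    refine (sata_iff hA (pt β k x q) F k.ex).1 fun b hb => ?_
    have h1 : ∑ a, F a * aeval q (coa d D β k ⟨(x, b), hx, hb⟩ a.1) = 0 :=
      h (Sum.inl ⟨(x, b), hx, hb⟩)
    simp only [hev] at h1
    exact h1
  · rintro ⟨h1, h2⟩ (r | r)
    · obtain ⟨⟨x, b⟩, hx, hb⟩ := r
      show ∑ a, F a * aeval q (coa d D β k ⟨(x, b), hx, hb⟩ a.1) = 0
      simp only [hev]
      exact (sata_iff hA (pt β k x q) F k.ex).2 (h1 x hx) b hb
    · exact (satb_iff hD β I hA k q F).2 h2 r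

end

section

variable {ν : Type} [Fintype ν] [DecidableEq ν] {d : ℕ}

/-- The solution space. -/
theorem mem_LSA {D : ℕ} (hD : D ≤ d) (β : ν → ℕ) (I : Finset ℕ) {A : Finset (ν → ℕ)}
    (hA : ∀ a ∈ A, ∑ s, a s = D) {κ : Type} (m : κ → Kd) (p : κ → ν × Fin (d + 1) → ℂ)
    (f : {a // a ∈ A} → ℂ) :
    f ∈ (LSA d D β I A).V m p ↔ ∀ i, Sat β I (m i) (p i) (Fn (ext0 A f)) := by
  rw [Sys.mem_V]
  refine forall_congr' fun i => ?_
  rw [← sat_iff hD β I hA (m i) (p i) f]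
  refine forall_congr' fun r => ?_
  simp only [aeval_eq_eval, mul_comm]

theorem Ex_sum {β : ν → ℕ} {D : ℕ} {I : Finset ℕ} {a : ν → ℕ} (h : a ∈ Ex β D I) :
    ∑ s, a s = D := (mem_Ex.1 h).1

theorem mem_LS {D : ℕ} (hD : D ≤ d) (β : ν → ℕ) (I : Finset ℕ) {κ : Type} (m : κ → Kd)
    (p : κ → ν × Fin (d + 1) → ℂ) (f : {a // a ∈ Ex β D I} → ℂ) :
    f ∈ (LS d D β I).V m p ↔ ∀ i, Sat β I (m i) (p i) (Fn (ext0 (Ex β D I) f)) :=
  mem_LSA hD β I (fun _ h => Ex_sum h) m p f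

end

end Pool.Agent.GD
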